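import Mathlib
import Pool.Agent.W66.RE
import Pool.Agent.H469R10.HO.Final

set_option autoImplicit false

/-!
# Integers with prime rough part in a cell: lower bound
-/

namespace Pool.Agent.N176.GP

open Finset Filter Topology
open Pool.Agent.H305R2 (roughPart roughPart_prime roughPart_mul SM SM_pos SMz mem_SMz VV ZZ VV_nonneg
  ZZ_nonneg ZZ_le_exp VV_tendsto sum_le_VV sum_rough_eq log_nat_tendsto)

/-- the number of `n` in the cell `[j b^(p-z), (j+1) b^(p-z))` with prime `p`-rough part -/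
def cnt (b z j p : ℕ) : ℕ :=
  ((Ico (j * b ^ (p - z)) ((j + 1) * b ^ (p - z))).filter (fun n => (roughPart p n).Prime)).card

lemma grow (a C : ℝ) (ha : 0 < a) : ∀ᶠ p : ℕ in atTop, C * (p : ℝ) ^ 2 ≤ Real.exp (a * p) := by
  have h1 := (Real.tendsto_pow_mul_exp_neg_atTop_nhds_zero 2).comp
    ((tendsto_natCast_atTop_atTop (R := ℝ)).const_mul_atTop ha)
  have h2 := h1.const_mul (|C| / a ^ 2)
  rw [mul_zero] at h2
  filter_upwards [h2.eventually_lt_const one_pos] with p hp
  simp only [Function.comp] at hp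
  have e : |C| / a ^ 2 * ((a * p) ^ 2 * Real.exp (-(a * p))) = |C| * (p : ℝ) ^ 2 * Real.exp (-(a * p)) := by
    field_simp
  rw [e, Real.exp_neg, ← div_eq_mul_inv, div_lt_one (Real.exp_pos _)] at hp
  refine le_trans ?_ hp.le
  exact mul_le_mul_of_nonneg_right (le_abs_self C) (by positivity)

lemma half_le_div {H s : ℕ} (hs : 0 < s) (h : 2 * s ≤ H) : (H : ℝ) / (4 * s) ≤ ((H / (2 * s) : ℕ) : ℝ) := by
  have h1 : 1 ≤ H / (2 * s) := (Nat.one_le_div_iff (by omega)).2 h
  have h2 : H < 2 * s * (H / (2 * s) + 1) := by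
    have := Nat.lt_mul_div_succ H (show 0 < 2 * s by omega)
    exact this
  have h3 : H ≤ 4 * s * (H / (2 * s)) := by nlinarith
  rw [div_le_iff₀ (by positivity)]
  have h4 : (H : ℝ) ≤ ((4 * s * (H / (2 * s)) : ℕ) : ℝ) := by exact_mod_cast h3
  push_cast at h4
  linarith

theorem cell_low {b : ℕ} (hb : 2 ≤ b) : ∃ c : ℝ, 0 < c ∧ ∃ K P : ℕ, 1 ≤ K ∧ ∀ p ≥ P, ∀ z : ℕ,
    K * z ≤ p → ∀ j : ℕ, 1 ≤ j → j ≤ b ^ (2 * z) →
    c * (Real.log p / p) * (b : ℝ) ^ (p - z) ≤ cnt b z j p := by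
  obtain ⟨δ, η, hδ, hδ1, hη, X0, hX0, hH⟩ := Pool.Agent.H469R10.HO.hoheisel
  have hb1 : (1 : ℝ) < b := by exact_mod_cast hb
  have hb0 : (0 : ℝ) < b := by linarith
  set L := Real.log b with hL
  have hL0 : 0 < L := Real.log_pos hb1
  have hbexp : ∀ n : ℕ, (b : ℝ) ^ n = Real.exp (n * L) := by
    intro n
    rw [mul_comm, Real.exp_mul, Real.exp_log hb0, Real.rpow_natCast]
  set K := ⌈8 / δ⌉₊ with hK
  have hKr : 8 / δ ≤ K := Nat.le_ceil _
  have hK8 : 8 ≤ K * δ := by rwa [div_le_iff₀ hδ] at hKr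
  have hK1 : 1 ≤ K := by
    rw [hK, Nat.one_le_ceil_iff]; positivity
  have hev := ((grow (L / 2) (8 * (X0 + 2)) (by positivity)).and
    ((grow (L * δ / 2) 4 (by positivity)).and (eventually_ge_atTop 2))).exists_forall_of_atTop
  obtain ⟨P, hP⟩ := hev
  refine ⟨η / (8 * L), by positivity, K, P, hK1, fun p hp z hz j hj1 hj2 => ?_⟩
  obtain ⟨g1, g2, hp2⟩ := hP p hp
  have hp2r : (2 : ℝ) ≤ p := by exact_mod_cast hp2
  have hp0 : (0 : ℝ) < p := by linarith
  have hzr : (z : ℝ) * 8 ≤ δ * p := by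
    have h1 : (K : ℝ) * z ≤ p := by exact_mod_cast hz
    have hz0 : (0 : ℝ) ≤ z := Nat.cast_nonneg z
    calc (z : ℝ) * 8 ≤ z * (K * δ) := by gcongr
      _ = δ * (K * z) := by ring
      _ ≤ δ * p := by gcongr
  have hz8 : (z : ℝ) * 8 ≤ p := hzr.trans (by nlinarith)
  have hz8n : z * 8 ≤ p := by exact_mod_cast hz8
  have hzp : z ≤ p := by omega
  set H := b ^ (p - z) with hHdef
  have hHr : (H : ℝ) = Real.exp (((p : ℝ) - z) * L) := by
    rw [hHdef]; push_cast; rw [hbexp, Nat.cast_sub hzp]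
  have hHpos : 0 < H := by positivity
  have hHbig : 8 * (X0 + 2) * (p : ℝ) ^ 2 ≤ H := by
    refine g1.trans ?_
    rw [hHr, Real.exp_le_exp]
    nlinarith
  set A := j * H with hA
  have hHA : H ≤ A := Nat.le_mul_of_pos_left H hj1
  have hAr : (A : ℝ) ≤ Real.exp (((p : ℝ) + z) * L) := by
    have h1 : (j : ℝ) ≤ Real.exp ((2 * z) * L) := by
      have : (j : ℝ) ≤ (b : ℝ) ^ (2 * z) := by exact_mod_cast hj2
      rw [hbexp] at this
      push_cast at this
      exact this
    rw [hA]; push_cast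
    calc (j : ℝ) * H ≤ Real.exp ((2 * z) * L) * Real.exp (((p : ℝ) - z) * L) := by
          rw [← hHr]; gcongr
      _ = _ := by rw [← Real.exp_add]; ring_nf
  -- the count
  have hcnt : (cnt b z j p : ℝ) = ∑ s ∈ SMz p ((A + H - 1 : ℕ) : ℝ),
      ∑ q ∈ (Ioc ((A - 1) / s) ((A + H - 1) / s)).filter (fun q => q.Prime ∧ p < q), (1 : ℝ) := by
    rw [← sum_rough_eq p (A - 1) (A + H - 1) (fun _ => (1 : ℝ))]
    have e : Ico (j * b ^ (p - z)) ((j + 1) * b ^ (p - z)) = Ioc (A - 1) (A + H - 1) := by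
      ext x
      have h1 : (j + 1) * b ^ (p - z) = A + H := by rw [hA, hHdef]; ring
      rw [h1, mem_Ico, mem_Ioc]
      have : j * b ^ (p - z) = A := rfl
      rw [this]
      omega
    unfold cnt
    rw [e, Finset.sum_const, nsmul_eq_mul, mul_one]
  rw [hcnt]
  -- restriction to `s ≤ p`
  have hpH : (p : ℝ) ≤ H := by
    refine le_trans ?_ hHbig
    have : (0 : ℝ) ≤ X0 := Nat.cast_nonneg _
    nlinarith
  have hpHn : p ≤ H := by exact_mod_cast hpH
  have hsub : Icc 1 p ⊆ SMz p ((A + H - 1 : ℕ) : ℝ) := by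
    intro s hs
    rw [mem_Icc] at hs
    rw [mem_SMz (Nat.cast_nonneg _)]
    refine ⟨Nat.mem_smoothNumbers_of_lt (by omega) (by omega), ?_⟩
    have : s ≤ A + H - 1 := by omega
    exact_mod_cast this
  have hstep : ∀ s ∈ Icc 1 p, η * ((H : ℝ) / (4 * s)) / (2 * p * L) ≤
      ∑ q ∈ (Ioc ((A - 1) / s) ((A + H - 1) / s)).filter (fun q => q.Prime ∧ p < q), (1 : ℝ) := by
    intro s hs
    rw [mem_Icc] at hs
    obtain ⟨hs1, hsp⟩ := hs
    have hs0 : (0 : ℝ) < s := by exact_mod_cast hs1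
    have hspr : (s : ℝ) ≤ p := by exact_mod_cast hsp
    set X := A / s with hX
    set Y := H / (2 * s) with hY
    have hX0r : (0 : ℝ) ≤ X0 := Nat.cast_nonneg _
    have h2sH : 2 * s ≤ H := by
      have : ((2 * s : ℕ) : ℝ) ≤ H := by
        push_cast
        refine le_trans ?_ hHbig
        nlinarith
      exact_mod_cast this
    have hYlow : (H : ℝ) / (4 * s) ≤ Y := half_le_div hs1 h2sH
    have hYX : Y ≤ X := by
      calc Y = H / (2 * s) := rfl
        _ ≤ A / (2 * s) := Nat.div_le_div_right hHA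
        _ ≤ A / s := Nat.div_le_div_left (by omega) hs1
    have hYr : (X0 : ℝ) + p ≤ Y := by
      refine le_trans ?_ hYlow
      rw [le_div_iff₀ (by positivity)]
      refine le_trans ?_ hHbig
      nlinarith [mul_nonneg hX0r hp0.le, mul_nonneg (mul_nonneg hX0r hp0.le) hs0.le,
        mul_nonneg hX0r (sub_nonneg.2 hspr), mul_nonneg hp0.le (sub_nonneg.2 hspr),
        mul_nonneg (mul_nonneg hX0r hp0.le) (sub_nonneg.2 hp2r), sq_nonneg (p : ℝ)]
    have hXX0 : X0 + p ≤ X := by
      have : X0 + p ≤ Y := by exact_mod_cast hYr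
      omega
    have hXA : (X : ℝ) ≤ A := by exact_mod_cast Nat.div_le_self A s
    have hXexp : (X : ℝ) ≤ Real.exp (((p : ℝ) + z) * L) := hXA.trans hAr
    have hXpos : (0 : ℝ) < X := by
      have : 0 < X := by omega
      exact_mod_cast this
    have hcond : (X : ℝ) ^ (1 - δ) ≤ Y := by
      refine le_trans ?_ hYlow
      rw [le_div_iff₀ (by positivity)]
      calc (X : ℝ) ^ (1 - δ) * (4 * s) ≤ (Real.exp (((p : ℝ) + z) * L)) ^ (1 - δ) * (4 * (p : ℝ) ^ 2) := by
            have h9 : (s : ℝ) ≤ (p : ℝ) ^ 2 := by nlinarith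
            have h10 : 0 ≤ 1 - δ := by linarith
            gcongr
        _ ≤ Real.exp (((p : ℝ) + z) * L * (1 - δ)) * Real.exp (L * δ / 2 * p) := by
            rw [← Real.exp_mul]
            gcongr
        _ = Real.exp (((p : ℝ) + z) * L * (1 - δ) + L * δ / 2 * p) := (Real.exp_add _ _).symm
        _ ≤ Real.exp (((p : ℝ) - z) * L) := by
            rw [Real.exp_le_exp]
            have hz0 : (0 : ℝ) ≤ z := Nat.cast_nonneg z
            have h3 : ((p : ℝ) + z) * (1 - δ) + δ / 2 * p ≤ (p : ℝ) - z := by nlinarith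
            nlinarith
        _ = H := hHr.symm
    have hmain := hH X Y (by omega) hcond hYX
    have hlogX : Real.log X ≤ 2 * p * L := by
      calc Real.log X ≤ Real.log (Real.exp (((p : ℝ) + z) * L)) := Real.log_le_log hXpos hXexp
        _ = ((p : ℝ) + z) * L := Real.log_exp _
        _ ≤ _ := by
            have hz0 : (0 : ℝ) ≤ z := Nat.cast_nonneg z
            nlinarith
    have hlogX0 : 0 < Real.log X := by
      refine Real.log_pos ?_
      have : 2 ≤ X := by omega
      have : (2 : ℝ) ≤ X := by exact_mod_cast this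
      linarith
    calc η * ((H : ℝ) / (4 * s)) / (2 * p * L) ≤ η * Y / Real.log X := by gcongr
      _ ≤ (((Ioc X (X + Y)).filter Nat.Prime).card : ℝ) := hmain
      _ ≤ (((Ioc ((A - 1) / s) ((A + H - 1) / s)).filter (fun q => q.Prime ∧ p < q)).card : ℝ) := by
          have hsub2 : (Ioc X (X + Y)).filter Nat.Prime ⊆
              (Ioc ((A - 1) / s) ((A + H - 1) / s)).filter (fun q => q.Prime ∧ p < q) := by
            intro q hq
            rw [mem_filter, mem_Ioc] at hq
            obtain ⟨⟨hq1, hq2⟩, hqp⟩ := hq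
            rw [mem_filter, mem_Ioc]
            refine ⟨⟨lt_of_le_of_lt (Nat.div_le_div_right (by omega)) hq1, hq2.trans ?_⟩, hqp, by omega⟩
            rw [Nat.le_div_iff_mul_le hs1, add_mul]
            have h4 : A / s * s ≤ A := Nat.div_mul_le_self A s
            have h5 : H / (2 * s) * (2 * s) ≤ H := Nat.div_mul_le_self H (2 * s)
            have h6 : 2 * (Y * s) ≤ H := by
              calc 2 * (Y * s) = Y * (2 * s) := by ring
                _ ≤ H := h5
            have h7 : X * s ≤ A := h4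
            omega
          exact_mod_cast Finset.card_le_card hsub2
      _ = _ := by rw [Finset.sum_const, nsmul_eq_mul, mul_one]
  have hharm : Real.log p ≤ ∑ s ∈ Icc 1 p, (s : ℝ)⁻¹ := by
    have h1 := log_add_one_le_harmonic p
    have h2 : Real.log p ≤ Real.log ((p : ℝ) + 1) := Real.log_le_log hp0 (by linarith)
    rw [harmonic_eq_sum_Icc] at h1
    push_cast at h1
    exact h2.trans h1
  calc η / (8 * L) * (Real.log p / p) * (b : ℝ) ^ (p - z)
      ≤ η / (8 * L) * ((∑ s ∈ Icc 1 p, (s : ℝ)⁻¹) / p) * (b : ℝ) ^ (p - z) := by gcongr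
    _ = ∑ s ∈ Icc 1 p, η * ((H : ℝ) / (4 * s)) / (2 * p * L) := by
        rw [Finset.sum_div, Finset.mul_sum, Finset.sum_mul]
        refine Finset.sum_congr rfl fun s hs => ?_
        rw [mem_Icc] at hs
        have hs0 : (0 : ℝ) < s := by exact_mod_cast hs.1
        have : (b : ℝ) ^ (p - z) = H := by rw [hHdef]; push_cast; rfl
        rw [this]
        field_simp
        ring
    _ ≤ ∑ s ∈ Icc 1 p, ∑ q ∈ (Ioc ((A - 1) / s) ((A + H - 1) / s)).filter
          (fun q => q.Prime ∧ p < q), (1 : ℝ) := Finset.sum_le_sum hstep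
    _ ≤ _ := Finset.sum_le_sum_of_subset_of_nonneg hsub fun s _ _ => by positivity

end Pool.Agent.N176.GP
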