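import Mathlib
import Pool.Agent.N176.GP.Low

set_option autoImplicit false

/-!
# Integers with prime rough part in a cell: upper bounds, one index and pairs
-/

namespace Pool.Agent.N176.GP

open Finset Filter Topology
open Pool.Agent.H305R2 (roughPart roughPart_prime roughPart_mul SM SM_pos SMz mem_SMz VV ZZ VV_nonneg
  ZZ_nonneg ZZ_le_exp VV_tendsto sum_le_VV sum_rough_eq log_nat_tendsto count_inner)
open Pool.Agent.W66 (sift_two MM MM_ne ratio_bound two_dvd_MM lt_of_not_dvd_MM no_mid_prime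
  large_smooth_count VV_le_log)
open Pool.Agent.Helper112.E456.SieveAux (DD)

lemma bexp {b : ℕ} (hb : 2 ≤ b) (n : ℕ) : (b : ℝ) ^ n = Real.exp (n * Real.log b) := by
  have hb0 : (0 : ℝ) < b := by positivity
  rw [mul_comm, Real.exp_mul, Real.exp_log hb0, Real.rpow_natCast]

/-- the decay of the number of integers with a large smooth part -/
lemma decay {b : ℕ} (hb : 2 ≤ b) : ∀ᶠ p : ℕ in atTop, ∀ m : ℕ, p ≤ m → m ≤ 2 * p → ∀ z : ℕ,
    32 * z ≤ p →
    Real.exp (2 * z * Real.log b) * ((Real.exp (((p : ℝ) - z) * Real.log b / 2)) ^ (-(1 / 2) : ℝ) * ZZ m) ≤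
      (Real.log p / p) ^ 2 := by
  have hL0 : 0 < Real.log b := Real.log_pos (by exact_mod_cast hb)
  obtain ⟨P3, hP3⟩ := eventually_atTop.1 (ZZ_le_exp (c := Real.log b / 64) (by positivity))
  filter_upwards [Pool.Agent.W66.exp_small (c := Real.log b / 16) (by positivity),
    eventually_ge_atTop P3] with p hsm hp3 m hpm hm2 z hz
  have hmr : (m : ℝ) ≤ 2 * p := by exact_mod_cast hm2
  have hzr : (32 : ℝ) * z ≤ p := by exact_mod_cast hz
  have hz0 : (0 : ℝ) ≤ z := Nat.cast_nonneg z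
  rw [← Real.exp_mul]
  calc Real.exp (2 * z * Real.log b) * (Real.exp (((p : ℝ) - z) * Real.log b / 2 * -(1 / 2)) * ZZ m)
      ≤ Real.exp (2 * z * Real.log b) * (Real.exp (((p : ℝ) - z) * Real.log b / 2 * -(1 / 2)) *
        Real.exp (Real.log b / 64 * m)) := by
          gcongr
          exact hP3 m (by omega)
    _ = Real.exp (2 * z * Real.log b + (((p : ℝ) - z) * Real.log b / 2 * -(1 / 2) +
        Real.log b / 64 * m)) := by rw [Real.exp_add, Real.exp_add]
    _ ≤ Real.exp (-(Real.log b / 16 * p)) := by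
        rw [Real.exp_le_exp]
        nlinarith
    _ ≤ _ := hsm

/-- the basic data of a cell -/
lemma cell_facts {b : ℕ} (hb : 2 ≤ b) {p z j : ℕ} (hz : 32 * z ≤ p) (hj1 : 1 ≤ j)
    (hj2 : j ≤ b ^ (2 * z)) :
    ((b ^ (p - z) : ℕ) : ℝ) = Real.exp (((p : ℝ) - z) * Real.log b) ∧ b ^ (p - z) ≤ j * b ^ (p - z) ∧
    (((j * b ^ (p - z) + b ^ (p - z) : ℕ)) : ℝ) ≤
      2 * Real.exp (2 * z * Real.log b) * ((b ^ (p - z) : ℕ) : ℝ) := by
  have hzp : z ≤ p := by omega
  have h1 : ((b ^ (p - z) : ℕ) : ℝ) = Real.exp (((p : ℝ) - z) * Real.log b) := by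
    push_cast; rw [bexp hb, Nat.cast_sub hzp]
  refine ⟨h1, Nat.le_mul_of_pos_left _ hj1, ?_⟩
  have h2 : (j : ℝ) ≤ Real.exp (2 * z * Real.log b) := by
    have : (j : ℝ) ≤ (b : ℝ) ^ (2 * z) := by exact_mod_cast hj2
    rw [bexp hb] at this
    push_cast at this
    exact this
  have h3 : (1 : ℝ) ≤ j := by exact_mod_cast hj1
  have h4 : (0 : ℝ) ≤ ((b ^ (p - z) : ℕ) : ℝ) := Nat.cast_nonneg _
  rw [Nat.cast_add, Nat.cast_mul]
  nlinarith

theorem cell_up {b : ℕ} (hb : 2 ≤ b) : ∃ C : ℝ, 0 < C ∧ ∃ P : ℕ, ∀ p ≥ P, ∀ z : ℕ,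
    32 * z ≤ p → ∀ j : ℕ, 1 ≤ j → j ≤ b ^ (2 * z) →
    (cnt b z j p : ℝ) ≤ C * (Real.log p / p) * (b : ℝ) ^ (p - z) := by
  classical
  obtain ⟨C0, hC01, hBT⟩ := Pool.Agent.Helper601.brun_titchmarsh
  obtain ⟨C1, hC1, hV⟩ := VV_le_log
  have hL0 : 0 < Real.log b := Real.log_pos (by exact_mod_cast hb)
  set L := Real.log b with hL
  obtain ⟨P, hP⟩ := ((decay hb).and (hV.and ((grow (L / 4) 1 (by positivity)).and
    ((log_nat_tendsto.eventually_ge_atTop 1).and (eventually_ge_atTop 2))))).exists_forall_of_atTop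
  refine ⟨8 * C0 * C1 / L + 2, by positivity, P, fun p hp z hz j hj1 hj2 => ?_⟩
  obtain ⟨hdec, hVp, hg, hlog1, hp2⟩ := hP p hp
  have hp2r : (2 : ℝ) ≤ p := by exact_mod_cast hp2
  have hp0 : (0 : ℝ) < p := by linarith
  obtain ⟨hHr, hHA, hsum⟩ := cell_facts hb hz hj1 hj2
  have hzr : (32 : ℝ) * z ≤ p := by exact_mod_cast hz
  have hz0 : (0 : ℝ) ≤ z := Nat.cast_nonneg z
  set H := b ^ (p - z) with hHdef
  have hHpos : 0 < H := by positivity
  have hH0 : (0 : ℝ) < H := by exact_mod_cast hHpos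
  set A := j * H with hA
  set B := A + H - 1 with hB
  set S := Real.exp (((p : ℝ) - z) * L / 2) with hS
  have hS0 : 0 < S := Real.exp_pos _
  have hSS : S * S = H := by rw [hS, hHr, ← Real.exp_add]; congr 1; ring
  have e : Ico (j * b ^ (p - z)) ((j + 1) * b ^ (p - z)) = Ioc (A - 1) B := by
    ext x
    have h1 : (j + 1) * b ^ (p - z) = A + H := by rw [hA, hHdef]; ring
    rw [h1, mem_Ico, mem_Ioc]
    have : j * b ^ (p - z) = A := rfl
    rw [this]
    omega
  have hdiv : ∀ s q : ℕ, s ∈ SM p → q.Prime → p < q → s * q / roughPart p (s * q) = s := by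
    intro s q hs hq hpq
    rw [roughPart_mul hs hq hpq, Nat.mul_div_cancel _ hq.pos]
  -- the part with a small smooth factor
  have h1 : (((Ioc (A - 1) B).filter (fun n => (roughPart p n).Prime ∧
      ((n / roughPart p n : ℕ) : ℝ) < S)).card : ℝ) ≤ 8 * C0 * H / (p * L) * VV p := by
    have h2 : (((Ioc (A - 1) B).filter (fun n => (roughPart p n).Prime ∧
      ((n / roughPart p n : ℕ) : ℝ) < S)).card : ℝ) =
        ∑ m ∈ (Ioc (A - 1) B).filter (fun m => (roughPart p m).Prime),
          (if ((m / roughPart p m : ℕ) : ℝ) < S then (1 : ℝ) else 0) := by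
      rw [← Finset.sum_filter, Finset.filter_filter, Finset.sum_const, nsmul_eq_mul, mul_one]
    rw [h2, sum_rough_eq]
    calc _ ≤ ∑ s ∈ (SMz p (B : ℝ)).filter (fun s : ℕ => (s : ℝ) < S), 8 * C0 * H / (p * L) * (s : ℝ)⁻¹ := by
          rw [Finset.sum_filter]
          refine Finset.sum_le_sum fun s hs => ?_
          have hs' := (mem_SMz (Nat.cast_nonneg _)).1 hs
          have hsn := SM_pos hs'.1
          have hs0 : (0 : ℝ) < s := by exact_mod_cast hsn
          have h3 : ∀ q ∈ (Ioc ((A - 1) / s) (B / s)).filter (fun q => q.Prime ∧ p < q),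
              (if ((s * q / roughPart p (s * q) : ℕ) : ℝ) < S then (1 : ℝ) else 0) =
              if (s : ℝ) < S then (1 : ℝ) else 0 := by
            intro q hq
            rw [mem_filter] at hq
            rw [hdiv s q hs'.1 hq.2.1 hq.2.2]
          rw [Finset.sum_congr rfl h3]
          split_ifs with hsS
          · rw [Finset.sum_const, nsmul_eq_mul, mul_one]
            have hD : B - (A - 1) = H := by omega
            obtain ⟨_, hc2⟩ := count_inner hBT p (A - 1) B s hsn (by omega)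
            rw [hD] at hc2
            have hHs : S ≤ (H : ℝ) / s := by
              rw [le_div_iff₀ hs0, ← hSS]
              exact mul_le_mul_of_nonneg_left hsS.le hS0.le
            have hS1 : (1 : ℝ) ≤ S := Real.one_le_exp (by
              have : (z : ℝ) ≤ p := by linarith
              have : 0 ≤ (p : ℝ) - z := by linarith
              positivity)
            have hHs1 : 1 ≤ H / s := by
              rw [Nat.one_le_div_iff hsn]
              have : (1 : ℝ) ≤ (H : ℝ) / s := hS1.trans hHs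
              rw [le_div_iff₀ hs0, one_mul] at this
              exact_mod_cast this
            refine (hc2 (by omega)).trans ?_
            have hup : ((H / s + 1 : ℕ) : ℝ) ≤ 2 * (H / s) := by
              push_cast
              have := @Nat.cast_div_le ℝ _ _ _ H s
              have : (1 : ℝ) ≤ (H : ℝ) / s := hS1.trans hHs
              linarith
            have hlow : S ≤ ((H / s + 1 : ℕ) : ℝ) := by
              have h5 : (H : ℝ) / s < ((H / s : ℕ) : ℝ) + 1 := by
                rw [div_lt_iff₀ hs0]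
                have := Nat.lt_mul_div_succ H hsn
                have h6 : (H : ℝ) < ((s * (H / s + 1) : ℕ) : ℝ) := by exact_mod_cast this
                push_cast at h6
                linarith
              push_cast
              linarith
            have hlog : (p : ℝ) * L / 4 ≤ Real.log ((H / s + 1 : ℕ) : ℝ) := by
              calc (p : ℝ) * L / 4 ≤ ((p : ℝ) - z) * L / 2 := by nlinarith
                _ = Real.log S := by rw [hS, Real.log_exp]
                _ ≤ _ := Real.log_le_log hS0 hlow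
            have hpL : 0 < (p : ℝ) * L / 4 := by positivity
            calc C0 * ((H / s + 1 : ℕ) : ℝ) / Real.log ((H / s + 1 : ℕ) : ℝ) ≤
                C0 * (2 * (H / s)) / ((p : ℝ) * L / 4) := by
                  gcongr
              _ = _ := by field_simp; ring
          · simp
      _ = 8 * C0 * H / (p * L) * ∑ s ∈ (SMz p (B : ℝ)).filter (fun s : ℕ => (s : ℝ) < S), (s : ℝ)⁻¹ := by
          rw [Finset.mul_sum]
      _ ≤ _ := by
          refine mul_le_mul_of_nonneg_left ?_ (by positivity)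
          refine sum_le_VV p _ fun s hs => ?_
          rw [mem_filter, mem_SMz (Nat.cast_nonneg _)] at hs
          exact hs.1.1
  have h2 : (((Ioc (A - 1) B).filter (fun n => (roughPart p n).Prime ∧
      S ≤ ((n / roughPart p n : ℕ) : ℝ))).card : ℝ) ≤ 2 * H * (Real.log p / p) ^ 2 := by
    have hsub : (Ioc (A - 1) B).filter (fun n => (roughPart p n).Prime ∧
        S ≤ ((n / roughPart p n : ℕ) : ℝ)) ⊆ (Icc 1 (A + H)).filter (fun n => (roughPart p n).Prime ∧
        S ≤ ((n / roughPart p n : ℕ) : ℝ)) := by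
      intro n hn
      rw [mem_filter, mem_Ioc] at hn
      rw [mem_filter, mem_Icc]
      exact ⟨by omega, hn.2⟩
    calc _ ≤ (((Icc 1 (A + H)).filter (fun n => (roughPart p n).Prime ∧
        S ≤ ((n / roughPart p n : ℕ) : ℝ))).card : ℝ) := by exact_mod_cast Finset.card_le_card hsub
      _ ≤ ((A + H : ℕ) : ℝ) * (S ^ (-(1 / 2) : ℝ) * ZZ p) := large_smooth_count p (A + H) hS0
      _ ≤ (2 * Real.exp (2 * z * L) * (H : ℝ)) * (S ^ (-(1 / 2) : ℝ) * ZZ p) := by
          have := ZZ_nonneg p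
          gcongr
      _ = 2 * H * (Real.exp (2 * z * L) * (S ^ (-(1 / 2) : ℝ) * ZZ p)) := by ring
      _ ≤ _ := by
          gcongr
          exact hdec p le_rfl (by omega) z hz
  have h3 : (cnt b z j p : ℝ) ≤ 8 * C0 * H / (p * L) * VV p + 2 * H * (Real.log p / p) ^ 2 := by
    unfold cnt
    rw [e]
    have hsub : (Ioc (A - 1) B).filter (fun n => (roughPart p n).Prime) ⊆
        (Ioc (A - 1) B).filter (fun n => (roughPart p n).Prime ∧ ((n / roughPart p n : ℕ) : ℝ) < S) ∪
        (Ioc (A - 1) B).filter (fun n => (roughPart p n).Prime ∧ S ≤ ((n / roughPart p n : ℕ) : ℝ)) := by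
      intro n hn
      rw [mem_filter] at hn
      rw [mem_union, mem_filter, mem_filter]
      rcases lt_or_ge ((n / roughPart p n : ℕ) : ℝ) S with h | h
      · left; exact ⟨hn.1, hn.2, h⟩
      · right; exact ⟨hn.1, hn.2, h⟩
    have h4 := (Finset.card_le_card hsub).trans (Finset.card_union_le _ _)
    have h5 : (((Ioc (A - 1) B).filter (fun n => (roughPart p n).Prime)).card : ℝ) ≤
        (((Ioc (A - 1) B).filter (fun n => (roughPart p n).Prime ∧
          ((n / roughPart p n : ℕ) : ℝ) < S)).card : ℝ) +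
        (((Ioc (A - 1) B).filter (fun n => (roughPart p n).Prime ∧
          S ≤ ((n / roughPart p n : ℕ) : ℝ))).card : ℝ) := by exact_mod_cast h4
    linarith
  have hlp0 : 0 ≤ Real.log p := Real.log_natCast_nonneg p
  have hle1 : Real.log p / p ≤ 1 := by
    rw [div_le_one hp0]
    exact (Real.log_le_sub_one_of_pos hp0).trans (by linarith)
  have hq0 : 0 ≤ Real.log p / p := by positivity
  have hHb : (b : ℝ) ^ (p - z) = H := by rw [hHdef]; push_cast; rfl
  rw [hHb]
  calc (cnt b z j p : ℝ) ≤ 8 * C0 * H / (p * L) * VV p + 2 * H * (Real.log p / p) ^ 2 := h3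
    _ ≤ 8 * C0 * H / (p * L) * (C1 * Real.log p) + 2 * H * (Real.log p / p) := by
        have h6 : (Real.log p / p) ^ 2 ≤ Real.log p / p := by nlinarith
        gcongr
    _ = _ := by field_simp

lemma near_cell {b : ℕ} (hb : 2 ≤ b) : ∃ C : ℝ, 0 < C ∧ ∃ P : ℕ, ∀ p ≥ P, ∀ h r : ℕ, h ≤ p → 0 < r →
    r < b ^ h → ∀ z : ℕ, 32 * z ≤ p → ∀ j : ℕ, 1 ≤ j → j ≤ b ^ (2 * z) →
    (((Ico (j * b ^ (p - z)) (j * b ^ (p - z) + b ^ (p - z))).filter (fun N : ℕ =>
      ((roughPart p N).Prime ∧
        ((N / roughPart p N : ℕ) : ℝ) < Real.exp (((p : ℝ) - z) * Real.log b / 2)) ∧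
      ((roughPart (p + h) (b ^ h * N + r)).Prime ∧
        (((b ^ h * N + r) / roughPart (p + h) (b ^ h * N + r) : ℕ) : ℝ) <
          Real.exp (((p : ℝ) - z) * Real.log b / 2)))).card : ℝ) ≤
      C * (Real.log p / p) ^ 2 * (b : ℝ) ^ (p - z) := by
  obtain ⟨C0, hC0, hsv⟩ := sift_two
  obtain ⟨C1, hC1, hrat⟩ := ratio_bound hb
  have hL0 : 0 < Real.log b := Real.log_pos (by exact_mod_cast hb)
  set L := Real.log b with hL
  obtain ⟨P1, hP1⟩ := eventually_atTop.1 hrat
  refine ⟨C0 * (2 * C1) ^ 2 / (L / 2) ^ 2, by positivity, max P1 2,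
    fun p hp h r hhp hr hrb z hz j hj1 hj2 => ?_⟩
  have hp2 : 2 ≤ p := (le_max_right _ _).trans hp
  have hpP1 : P1 ≤ p := (le_max_left _ _).trans hp
  have hp2r : (2 : ℝ) ≤ p := by exact_mod_cast hp2
  have hp0 : (0 : ℝ) < p := by linarith
  obtain ⟨hHr, hHA, hsum⟩ := cell_facts hb hz hj1 hj2
  have hzr : (32 : ℝ) * z ≤ p := by exact_mod_cast hz
  have hz0 : (0 : ℝ) ≤ z := Nat.cast_nonneg z
  set H := b ^ (p - z) with hHdef
  have hHpos : 0 < H := by positivity
  have hH0 : (0 : ℝ) < H := by exact_mod_cast hHpos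
  have hH2 : 2 ≤ H := by
    calc 2 = 2 ^ 1 := rfl
      _ ≤ b ^ 1 := Nat.pow_le_pow_left hb 1
      _ ≤ b ^ (p - z) := Nat.pow_le_pow_right (by omega) (by omega)
  have hH1r : (1 : ℝ) ≤ H := by exact_mod_cast hHpos
  set A := j * H with hA
  set S := Real.exp (((p : ℝ) - z) * L / 2) with hS
  have hS0 : 0 < S := Real.exp_pos _
  have hSH : S = (H : ℝ) ^ (1 / 2 : ℝ) := by rw [hS, hHr, ← Real.exp_mul]; congr 1; ring
  have hA1 : 1 ≤ A := by omega
  have hHA' : (H : ℝ) ≤ A := by exact_mod_cast hHA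
  have hzS : (H : ℝ) ^ ((1 : ℝ) / 8) * S ≤ A := by
    rw [hSH, ← Real.rpow_add hH0]
    refine le_trans ?_ hHA'
    calc (H : ℝ) ^ ((1 : ℝ) / 8 + 1 / 2) ≤ (H : ℝ) ^ (1 : ℝ) :=
          Real.rpow_le_rpow_of_exponent_le hH1r (by norm_num)
      _ = H := Real.rpow_one _
  set q := p + h with hq
  set Q : ℕ → Prop := fun N : ℕ =>
      ((roughPart p N).Prime ∧ ((N / roughPart p N : ℕ) : ℝ) < S) ∧
      ((roughPart q (b ^ h * N + r)).Prime ∧
        (((b ^ h * N + r) / roughPart q (b ^ h * N + r) : ℕ) : ℝ) < S) with hQ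
  classical
  set T := (Icc 1 H).filter (fun n => Q (n + (A - 1))) with hT
  have hcard : (((Ico A (A + H)).filter Q).card : ℝ) ≤ T.card := by
    have hsub : (Ico A (A + H)).filter Q ⊆ T.image (fun n => n + (A - 1)) := by
      intro N hN
      rw [mem_filter, mem_Ico] at hN
      rw [mem_image]
      refine ⟨N - (A - 1), ?_, by omega⟩
      rw [hT, mem_filter, mem_Icc]
      have e : N - (A - 1) + (A - 1) = N := by omega
      rw [e]
      exact ⟨by omega, hN.2⟩
    exact_mod_cast (Finset.card_le_card hsub).trans Finset.card_image_le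
  refine hcard.trans ?_
  have hq2 : 2 ≤ q := by omega
  have hM0 : MM q b h r ≠ 0 := MM_ne hb hr
  have hDD : DD 1 (A - 1) (b ^ h) (b ^ h * (A - 1) + r) ∣ MM q b h r := by
    have e : DD 1 (A - 1) (b ^ h) (b ^ h * (A - 1) + r) = b ^ h * r := by
      unfold DD
      have e2 : ((((1 * (b ^ h * (A - 1) + r) : ℕ) : ℤ)) - ((b ^ h * (A - 1) : ℕ) : ℤ)).natAbs = r := by
        have : ((((1 * (b ^ h * (A - 1) + r) : ℕ) : ℤ)) - ((b ^ h * (A - 1) : ℕ) : ℤ)) = r := by
          push_cast; ring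
        rw [this]; simp
      rw [e2, one_mul]
    rw [e]; unfold MM; exact dvd_mul_left _ _
  have hmain := hsv 1 (A - 1) (b ^ h) (b ^ h * (A - 1) + r) H (MM q b h r) one_pos (by positivity)
    (two_dvd_MM hq2) hM0 hDD hH2 T (filter_subset _ _) (by
      intro n hn l hl hlz hlM
      have hql := lt_of_not_dvd_MM hl hlM
      rw [hT, mem_filter, mem_Icc] at hn
      obtain ⟨⟨hn1, _⟩, hQn⟩ := hn
      have e1 : 1 * n + (A - 1) = n + (A - 1) := by ring
      have e2 : b ^ h * n + (b ^ h * (A - 1) + r) = b ^ h * (n + (A - 1)) + r := by ring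
      rw [e1, e2]
      have hnN : A ≤ n + (A - 1) := by omega
      have hnN' : (A : ℝ) ≤ ((n + (A - 1) : ℕ) : ℝ) := by exact_mod_cast hnN
      have hnM : A ≤ b ^ h * (n + (A - 1)) + r := by
        have : 1 ≤ b ^ h := Nat.one_le_pow _ _ (by omega)
        nlinarith
      have hnM' : (A : ℝ) ≤ ((b ^ h * (n + (A - 1)) + r : ℕ) : ℝ) := by exact_mod_cast hnM
      constructor
      · exact no_mid_prime hQn.1.1 hQn.1.2 (hzS.trans hnN') hl (by omega) hlz
      · exact no_mid_prime hQn.2.1 hQn.2.2 (hzS.trans hnM') hl hql hlz)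
  have hr1 := hP1 q (by omega) h r (by omega) hr hrb
  have hlq : Real.log q ≤ 2 * Real.log p := by
    have hq2p : (q : ℝ) ≤ p * p := by
      have : q ≤ p * p := by nlinarith
      exact_mod_cast this
    calc Real.log q ≤ Real.log (p * p) := Real.log_le_log (by positivity) hq2p
      _ = 2 * Real.log p := by rw [Real.log_mul hp0.ne' hp0.ne']; ring
  have hlq0 : 0 ≤ Real.log q := Real.log_natCast_nonneg q
  have hlp0 : 0 ≤ Real.log p := Real.log_natCast_nonneg p
  have hr2 : ((MM q b h r : ℕ) : ℝ) / (Nat.totient (MM q b h r) : ℝ) ≤ 2 * C1 * Real.log p := by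
    calc _ ≤ C1 * Real.log q := hr1
      _ ≤ C1 * (2 * Real.log p) := by gcongr
      _ = _ := by ring
  have hr0 : 0 ≤ ((MM q b h r : ℕ) : ℝ) / (Nat.totient (MM q b h r) : ℝ) := by positivity
  have hlogH : L / 2 * p ≤ Real.log H := by
    rw [hHr, Real.log_exp]
    nlinarith
  have hlbp : 0 < L / 2 * p := by positivity
  have hHb : (b : ℝ) ^ (p - z) = H := by rw [hHdef]; push_cast; rfl
  rw [hHb]
  calc (T.card : ℝ) ≤ C0 * (((MM q b h r : ℕ) : ℝ) / (Nat.totient (MM q b h r) : ℝ)) ^ 2 * H /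
        (Real.log H) ^ 2 := hmain
    _ ≤ C0 * (2 * C1 * Real.log p) ^ 2 * H / (L / 2 * p) ^ 2 := by gcongr
    _ = _ := by field_simp

end Pool.Agent.N176.GP
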