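import Mathlib
import Pool.Agent.N176.GP.Up

set_option autoImplicit false

/-!
# Pairs in a cell
-/

namespace Pool.Agent.N176.GP

open Finset Filter Topology
open Pool.Agent.H305R2 (roughPart roughPart_prime roughPart_mul SM SM_pos SMz mem_SMz VV ZZ VV_nonneg
  ZZ_nonneg ZZ_le_exp VV_tendsto sum_le_VV sum_rough_eq log_nat_tendsto count_inner)
open Pool.Agent.W66 (large_smooth_count)

/-- sums over an interval of multiples -/
lemma sum_cells (B a c : ℕ) (hac : a ≤ c) (g : ℕ → ℝ) :
    ∑ n ∈ Ico (a * B) (c * B), g n = ∑ m ∈ Ico a c, ∑ r ∈ range B, g (m * B + r) := by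
  induction c, hac using Nat.le_induction with
  | base => simp
  | succ c hac ih =>
    rw [Finset.sum_Ico_succ_top hac, ← ih,
      ← Finset.sum_Ico_consecutive g (Nat.mul_le_mul_right B hac) (Nat.mul_le_mul_right B (Nat.le_succ c))]
    congr 1
    rw [Finset.sum_Ico_eq_sum_range]
    have : (c + 1) * B - c * B = B := by rw [add_mul, one_mul]; omega
    rw [this]

/-- sums of functions of the quotient -/
lemma sum_div (B a c : ℕ) (hB : 0 < B) (hac : a ≤ c) (g : ℕ → ℝ) :
    ∑ n ∈ Ico (a * B) (c * B), g (n / B) = B * ∑ m ∈ Ico a c, g m := by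
  rw [sum_cells B a c hac, Finset.mul_sum]
  refine Finset.sum_congr rfl fun m _ => ?_
  have : ∀ r ∈ range B, g ((m * B + r) / B) = g m := by
    intro r hr
    rw [mem_range] at hr
    rw [Nat.add_div_of_dvd_right (dvd_mul_left B m), Nat.mul_div_cancel _ hB, Nat.div_eq_of_lt hr,
      add_zero]
  rw [Finset.sum_congr rfl this, Finset.sum_const, card_range, nsmul_eq_mul]

/-- indicator of a prime `p`-rough part -/
def XX (p n : ℕ) : ℝ := if (roughPart p n).Prime then 1 else 0

lemma XX_nonneg (p n : ℕ) : 0 ≤ XX p n := by unfold XX; split_ifs <;> norm_num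

lemma XX_sq (p n : ℕ) : XX p n * XX p n = XX p n := by unfold XX; split_ifs <;> norm_num

lemma cnt_eq (b z j p : ℕ) :
    (cnt b z j p : ℝ) = ∑ n ∈ Ico (j * b ^ (p - z)) ((j + 1) * b ^ (p - z)), XX p n := by
  unfold cnt XX
  rw [← Finset.sum_filter, Finset.sum_const, nsmul_eq_mul, mul_one]

theorem cell_pair {b : ℕ} (hb : 2 ≤ b) : ∃ C : ℝ, 0 < C ∧ ∃ P : ℕ, ∀ p ≥ P, ∀ h : ℕ, 1 ≤ h →
    h ≤ p → ∀ z : ℕ, 32 * z ≤ p → ∀ j : ℕ, 1 ≤ j → j ≤ b ^ (2 * z) →
    ∑ n ∈ Ico (j * b ^ (p + h - z)) ((j + 1) * b ^ (p + h - z)), XX p (n / b ^ h) * XX (p + h) n ≤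
      C * ((Real.log p / p) ^ 2 + ((b : ℝ) ^ h)⁻¹ * (Real.log p / p)) * (b : ℝ) ^ (p + h - z) := by
  classical
  obtain ⟨C1, hC1, P1, hup⟩ := cell_up hb
  obtain ⟨C2, hC2, P2, hnear⟩ := near_cell hb
  have hL0 : 0 < Real.log b := Real.log_pos (by exact_mod_cast hb)
  set L := Real.log b with hL
  obtain ⟨P3, hP3⟩ := ((decay hb).and (eventually_ge_atTop 2)).exists_forall_of_atTop
  refine ⟨C1 + C2 + 4, by positivity, max P1 (max P2 P3), fun p hp h hh1 hhp z hz j hj1 hj2 => ?_⟩
  have hpP1 : P1 ≤ p := (le_max_left _ _).trans hp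
  have hpP2 : P2 ≤ p := ((le_max_left _ _).trans (le_max_right _ _)).trans hp
  have hpP3 : P3 ≤ p := ((le_max_right _ _).trans (le_max_right _ _)).trans hp
  obtain ⟨hdec, hp2⟩ := hP3 p hpP3
  have hp2r : (2 : ℝ) ≤ p := by exact_mod_cast hp2
  have hp0 : (0 : ℝ) < p := by linarith
  obtain ⟨hHr, hHA, hsum⟩ := cell_facts hb hz hj1 hj2
  have hupj := hup p hpP1 z hz j hj1 hj2
  have hnearj := fun r hr hrb => hnear p hpP2 h r hhp hr hrb z hz j hj1 hj2
  set H := b ^ (p - z) with hHdef
  set B := b ^ h with hBdef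
  have hHpos : 0 < H := by positivity
  have hBpos : 0 < B := by positivity
  have hH0 : (0 : ℝ) < H := by exact_mod_cast hHpos
  have hB0 : (0 : ℝ) < B := by exact_mod_cast hBpos
  have hBr : (b : ℝ) ^ h = B := by rw [hBdef]; push_cast; rfl
  have hHb : (b : ℝ) ^ (p - z) = H := by rw [hHdef]; push_cast; rfl
  have hsplit : b ^ (p + h - z) = H * B := by
    rw [hHdef, hBdef, ← pow_add]; congr 1; omega
  have hsplitr : (b : ℝ) ^ (p + h - z) = H * B := by
    have : ((b ^ (p + h - z) : ℕ) : ℝ) = ((H * B : ℕ) : ℝ) := by rw [hsplit]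
    push_cast at this
    rw [this, hHdef, hBdef]
  set A := j * H with hA
  set q := p + h with hq
  set S := Real.exp (((p : ℝ) - z) * L / 2) with hS
  have hS0 : 0 < S := Real.exp_pos _
  rw [hsplit, ← mul_assoc, ← mul_assoc, sum_cells B _ _ (Nat.mul_le_mul_right H (Nat.le_succ j)), hsplitr]
  have e0 : (j + 1) * H = A + H := by rw [hA]; ring
  rw [e0, ← hA]
  -- the pairs
  have hxx : ∀ m, ∀ r ∈ range B, XX p ((m * B + r) / B) * XX q (m * B + r) =
      XX p m * XX q (B * m + r) := by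
    intro m r hr
    rw [mem_range] at hr
    rw [Nat.add_div_of_dvd_right (dvd_mul_left B m), Nat.mul_div_cancel _ hBpos, Nat.div_eq_of_lt hr,
      add_zero, mul_comm m B]
  rw [Finset.sum_congr rfl fun m _ => Finset.sum_congr rfl (hxx m)]
  -- split `r = 0`
  have hr0 : ∀ m, ∑ r ∈ range B, XX p m * XX q (B * m + r) ≤
      XX p m + ∑ r ∈ Ico 1 B, XX p m * XX q (B * m + r) := by
    intro m
    rw [Finset.range_eq_Ico, Finset.sum_eq_sum_Ico_succ_bot hBpos]
    have h1 : XX q (B * m + 0) ≤ 1 := by unfold XX; split_ifs <;> norm_num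
    have h2 := XX_nonneg p m
    have h3 : XX p m * XX q (B * m + 0) ≤ XX p m := by nlinarith
    simpa using h3
  refine (Finset.sum_le_sum fun m _ => hr0 m).trans ?_
  rw [Finset.sum_add_distrib]
  have hpartA : ∑ m ∈ Ico A (A + H), XX p m ≤ C1 * (Real.log p / p) * H := by
    have h1 := cnt_eq b z j p
    rw [← hHdef, e0, ← hA] at h1
    rw [← h1, ← hHb]
    exact hupj
  -- the others
  have hlp0 : 0 ≤ Real.log p := Real.log_natCast_nonneg p
  set w := (Real.log p / p) ^ 2 with hw
  have hw0 : 0 ≤ w := by positivity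
  have hpartB : ∑ m ∈ Ico A (A + H), ∑ r ∈ Ico 1 B, XX p m * XX q (B * m + r) ≤
      (C2 + 4) * w * (H * B) := by
    -- the indicators
    have hle : ∀ m r : ℕ, XX p m * XX q (B * m + r) ≤
        (if (roughPart p m).Prime ∧ S ≤ ((m / roughPart p m : ℕ) : ℝ) then (1 : ℝ) else 0) +
        (if (roughPart q (B * m + r)).Prime ∧ S ≤ (((B * m + r) / roughPart q (B * m + r) : ℕ) : ℝ)
          then (1 : ℝ) else 0) +
        (if (((roughPart p m).Prime ∧ ((m / roughPart p m : ℕ) : ℝ) < S) ∧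
          ((roughPart q (B * m + r)).Prime ∧
            (((B * m + r) / roughPart q (B * m + r) : ℕ) : ℝ) < S)) then (1 : ℝ) else 0) := by
      intro m r
      unfold XX
      by_cases h1 : (roughPart p m).Prime
      · by_cases h2 : (roughPart q (B * m + r)).Prime
        · rcases lt_or_ge ((m / roughPart p m : ℕ) : ℝ) S with h3 | h3
          · rcases lt_or_ge (((B * m + r) / roughPart q (B * m + r) : ℕ) : ℝ) S with h4 | h4
            · rw [if_pos h1, if_pos h2, if_pos (And.intro (And.intro h1 h3) (And.intro h2 h4))]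
              split_ifs <;> norm_num
            · rw [if_pos h1, if_pos h2, if_pos (And.intro h2 h4)]
              split_ifs <;> norm_num
          · rw [if_pos h1, if_pos h2, if_pos (And.intro h1 h3)]
            split_ifs <;> norm_num
        · rw [if_neg h2, mul_zero]
          split_ifs <;> norm_num
      · rw [if_neg h1, zero_mul]
        split_ifs <;> norm_num
    have hsumle : ∑ m ∈ Ico A (A + H), ∑ r ∈ Ico 1 B, XX p m * XX q (B * m + r) ≤
        ∑ m ∈ Ico A (A + H), ∑ r ∈ Ico 1 B,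
          (if (roughPart p m).Prime ∧ S ≤ ((m / roughPart p m : ℕ) : ℝ) then (1 : ℝ) else 0) +
        ∑ m ∈ Ico A (A + H), ∑ r ∈ Ico 1 B,
          (if (roughPart q (B * m + r)).Prime ∧ S ≤ (((B * m + r) / roughPart q (B * m + r) : ℕ) : ℝ)
            then (1 : ℝ) else 0) +
        ∑ m ∈ Ico A (A + H), ∑ r ∈ Ico 1 B,
          (if (((roughPart p m).Prime ∧ ((m / roughPart p m : ℕ) : ℝ) < S) ∧
          ((roughPart q (B * m + r)).Prime ∧
            (((B * m + r) / roughPart q (B * m + r) : ℕ) : ℝ) < S)) then (1 : ℝ) else 0) := by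
      simp only [← Finset.sum_add_distrib]
      exact Finset.sum_le_sum fun m _ => Finset.sum_le_sum fun r _ => hle m r
    have hlarge : ∀ (m X : ℕ), p ≤ m → m ≤ 2 * p → (X : ℝ) ≤ 2 * Real.exp (2 * z * L) * H →
        (((Icc 1 X).filter (fun n => (roughPart m n).Prime ∧
          S ≤ ((n / roughPart m n : ℕ) : ℝ))).card : ℝ) ≤ 2 * w * H := by
      intro m X hm1 hm2 hX
      refine (large_smooth_count m X hS0).trans ?_
      have h0 := ZZ_nonneg m
      calc (X : ℝ) * (S ^ (-(1 / 2) : ℝ) * ZZ m) ≤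
            (2 * Real.exp (2 * z * L) * H) * (S ^ (-(1 / 2) : ℝ) * ZZ m) := by gcongr
        _ = 2 * (Real.exp (2 * z * L) * (S ^ (-(1 / 2) : ℝ) * ZZ m)) * H := by ring
        _ ≤ 2 * w * H := by
            gcongr
            exact hdec m hm1 hm2 z hz
    have hB1 : ∑ m ∈ Ico A (A + H), ∑ r ∈ Ico 1 B,
          (if (roughPart p m).Prime ∧ S ≤ ((m / roughPart p m : ℕ) : ℝ) then (1 : ℝ) else 0) ≤
          2 * w * (H * B) := by
      have h1 : ∀ m ∈ Ico A (A + H), ∑ r ∈ Ico 1 B,
          (if (roughPart p m).Prime ∧ S ≤ ((m / roughPart p m : ℕ) : ℝ) then (1 : ℝ) else 0) ≤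
          B * (if (roughPart p m).Prime ∧ S ≤ ((m / roughPart p m : ℕ) : ℝ) then (1 : ℝ) else 0) := by
        intro m _
        rw [Finset.sum_const, Nat.card_Ico, nsmul_eq_mul]
        have h2 : ((B - 1 : ℕ) : ℝ) ≤ B := by exact_mod_cast Nat.sub_le _ _
        refine mul_le_mul_of_nonneg_right h2 ?_
        split_ifs <;> norm_num
      refine (Finset.sum_le_sum h1).trans ?_
      rw [← Finset.mul_sum, ← Finset.sum_filter, Finset.sum_const, nsmul_eq_mul, mul_one]
      have hsub : (Ico A (A + H)).filter (fun n => (roughPart p n).Prime ∧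
          S ≤ ((n / roughPart p n : ℕ) : ℝ)) ⊆ (Icc 1 (A + H)).filter (fun n => (roughPart p n).Prime ∧
          S ≤ ((n / roughPart p n : ℕ) : ℝ)) := by
        intro n hn
        rw [mem_filter, mem_Ico] at hn
        rw [mem_filter, mem_Icc]
        exact ⟨by omega, hn.2⟩
      have h3 : (((Ico A (A + H)).filter (fun n => (roughPart p n).Prime ∧
          S ≤ ((n / roughPart p n : ℕ) : ℝ))).card : ℝ) ≤ 2 * w * H := by
        refine le_trans (by exact_mod_cast Finset.card_le_card hsub)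
          (hlarge p (A + H) le_rfl (by omega) hsum)
      calc (B : ℝ) * _ ≤ B * (2 * w * H) := mul_le_mul_of_nonneg_left h3 hB0.le
        _ = _ := by ring
    have hB2 : ∑ m ∈ Ico A (A + H), ∑ r ∈ Ico 1 B,
          (if (roughPart q (B * m + r)).Prime ∧ S ≤ (((B * m + r) / roughPart q (B * m + r) : ℕ) : ℝ)
            then (1 : ℝ) else 0) ≤ 2 * w * (H * B) := by
      set φ : ℕ → ℝ := fun n => if (roughPart q n).Prime ∧ S ≤ ((n / roughPart q n : ℕ) : ℝ)
            then (1 : ℝ) else 0 with hφ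
      have hφ0 : ∀ n, 0 ≤ φ n := fun n => by simp only [hφ]; split_ifs <;> norm_num
      have h1 : ∑ m ∈ Ico A (A + H), ∑ r ∈ Ico 1 B, φ (B * m + r) ≤
          ∑ n ∈ Ico (A * B) ((A + H) * B), φ n := by
        rw [sum_cells B A (A + H) (by omega)]
        refine Finset.sum_le_sum fun m _ => ?_
        rw [Finset.range_eq_Ico]
        simp only [mul_comm m B]
        exact Finset.sum_le_sum_of_subset_of_nonneg (Finset.Ico_subset_Ico_left (by norm_num))
          fun n _ _ => hφ0 _
      refine h1.trans ?_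
      simp only [hφ]
      rw [← Finset.sum_filter, Finset.sum_const, nsmul_eq_mul, mul_one]
      have hsub : (Ico (A * B) ((A + H) * B)).filter (fun n => (roughPart q n).Prime ∧
          S ≤ ((n / roughPart q n : ℕ) : ℝ)) ⊆ (Icc 1 ((A + H) * B)).filter
          (fun n => (roughPart q n).Prime ∧ S ≤ ((n / roughPart q n : ℕ) : ℝ)) := by
        intro n hn
        rw [mem_filter, mem_Ico] at hn
        rw [mem_filter, mem_Icc]
        have h2 : 0 < A * B := Nat.mul_pos (by omega) hBpos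
        exact ⟨by omega, hn.2⟩
      have h0 := ZZ_nonneg q
      calc _ ≤ (((Icc 1 ((A + H) * B)).filter
            (fun n => (roughPart q n).Prime ∧ S ≤ ((n / roughPart q n : ℕ) : ℝ))).card : ℝ) := by
            exact_mod_cast Finset.card_le_card hsub
        _ ≤ (((A + H) * B : ℕ) : ℝ) * (S ^ (-(1 / 2) : ℝ) * ZZ q) :=
            large_smooth_count q ((A + H) * B) hS0
        _ = ((A + H : ℕ) : ℝ) * B * (S ^ (-(1 / 2) : ℝ) * ZZ q) := by push_cast; ring
        _ ≤ (2 * Real.exp (2 * z * L) * H) * B * (S ^ (-(1 / 2) : ℝ) * ZZ q) := by gcongr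
        _ = 2 * (Real.exp (2 * z * L) * (S ^ (-(1 / 2) : ℝ) * ZZ q)) * (H * B) := by ring
        _ ≤ 2 * w * (H * B) := by
            gcongr
            exact hdec q (by omega) (by omega) z hz
    have hG : ∑ m ∈ Ico A (A + H), ∑ r ∈ Ico 1 B,
          (if (((roughPart p m).Prime ∧ ((m / roughPart p m : ℕ) : ℝ) < S) ∧
          ((roughPart q (B * m + r)).Prime ∧
            (((B * m + r) / roughPart q (B * m + r) : ℕ) : ℝ) < S)) then (1 : ℝ) else 0) ≤
          C2 * w * (H * B) := by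
      rw [Finset.sum_comm]
      have h1 : ∀ r ∈ Ico 1 B, ∑ m ∈ Ico A (A + H),
          (if (((roughPart p m).Prime ∧ ((m / roughPart p m : ℕ) : ℝ) < S) ∧
          ((roughPart q (B * m + r)).Prime ∧
            (((B * m + r) / roughPart q (B * m + r) : ℕ) : ℝ) < S)) then (1 : ℝ) else 0) ≤
          C2 * w * H := by
        intro r hr
        rw [mem_Ico] at hr
        rw [← Finset.sum_filter, Finset.sum_const, nsmul_eq_mul, mul_one, ← hHb]
        exact hnearj r (by omega) hr.2
      refine (Finset.sum_le_sum h1).trans ?_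
      rw [Finset.sum_const, Nat.card_Ico, nsmul_eq_mul]
      have h2 : ((B - 1 : ℕ) : ℝ) ≤ B := by exact_mod_cast Nat.sub_le _ _
      calc ((B - 1 : ℕ) : ℝ) * (C2 * w * H) ≤ B * (C2 * w * H) :=
            mul_le_mul_of_nonneg_right h2 (by positivity)
        _ = _ := by ring
    calc _ ≤ _ := hsumle
      _ ≤ 2 * w * (H * B) + 2 * w * (H * B) + C2 * w * (H * B) := add_le_add (add_le_add hB1 hB2) hG
      _ = _ := by ring
  have hinv : (B : ℝ)⁻¹ * B = 1 := inv_mul_cancel₀ hB0.ne'
  rw [hBr]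
  calc _ ≤ C1 * (Real.log p / p) * H + (C2 + 4) * w * (H * B) := add_le_add hpartA hpartB
    _ = C1 * ((B : ℝ)⁻¹ * (Real.log p / p)) * (H * B) + (C2 + 4) * w * (H * B) := by
        field_simp
    _ ≤ (C1 + C2 + 4) * ((B : ℝ)⁻¹ * (Real.log p / p)) * (H * B) +
        (C1 + C2 + 4) * w * (H * B) := by
        gcongr
        · linarith
        · linarith
    _ = _ := by ring

end Pool.Agent.N176.GP
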