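import Mathlib
import Pool.Agent.N176.GP.Pair

set_option autoImplicit false

/-!
# A block of exponents, given the first digits: second moment
-/

namespace Pool.Agent.N176.GP

open Finset Filter Topology
open Pool.Agent.H305R2 (roughPart)

/-- number of the indices in `T` with prime rough part; `n` has the top level `t` -/
def SS (T : Finset ℕ) (b t n : ℕ) : ℝ := ∑ p ∈ T, XX p (n / b ^ (t - p))

lemma SS_nonneg (T : Finset ℕ) (b t n : ℕ) : 0 ≤ SS T b t n := Finset.sum_nonneg fun _ _ => XX_nonneg _ _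

lemma sum_one {b : ℕ} (hb : 2 ≤ b) {p z j t : ℕ} (hzp : z ≤ p) (hpt : p ≤ t) :
    ∑ n ∈ Ico (j * b ^ (t - z)) ((j + 1) * b ^ (t - z)), XX p (n / b ^ (t - p)) =
      (b : ℝ) ^ (t - p) * cnt b z j p := by
  have e : b ^ (t - z) = b ^ (p - z) * b ^ (t - p) := by rw [← pow_add]; congr 1; omega
  rw [e, ← mul_assoc, ← mul_assoc, sum_div _ _ _ (by positivity) (Nat.mul_le_mul_right _ (Nat.le_succ j)) (XX p), cnt_eq]
  push_cast
  rfl

lemma sum_two {b : ℕ} (hb : 2 ≤ b) {p q z j t : ℕ} (hzp : z ≤ q) (hpq : p ≤ q) (hqt : q ≤ t) :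
    ∑ n ∈ Ico (j * b ^ (t - z)) ((j + 1) * b ^ (t - z)), XX p (n / b ^ (t - p)) * XX q (n / b ^ (t - q)) =
      (b : ℝ) ^ (t - q) * ∑ n ∈ Ico (j * b ^ (q - z)) ((j + 1) * b ^ (q - z)),
        XX p (n / b ^ (q - p)) * XX q n := by
  have e : b ^ (t - z) = b ^ (q - z) * b ^ (t - q) := by rw [← pow_add]; congr 1; omega
  have e2 : b ^ (t - p) = b ^ (t - q) * b ^ (q - p) := by rw [← pow_add]; congr 1; omega
  rw [e, ← mul_assoc, ← mul_assoc, e2]
  simp only [← Nat.div_div_eq_div_mul]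
  rw [sum_div _ _ _ (by positivity) (Nat.mul_le_mul_right _ (Nat.le_succ j))
    (fun m => XX p (m / b ^ (q - p)) * XX q m)]
  push_cast
  rfl

lemma geo_dist {b : ℕ} (hb : 2 ≤ b) (T : Finset ℕ) (p : ℕ) :
    ∑ q ∈ T, ((b : ℝ) ^ ((p - q) + (q - p)))⁻¹ ≤ 4 := by
  have hb2 : (2 : ℝ) ≤ b := by exact_mod_cast hb
  have hinv : (b : ℝ)⁻¹ ≤ 1 / 2 := by
    rw [← one_div]; exact one_div_le_one_div_of_le (by norm_num) hb2
  have hinv0 : 0 ≤ (b : ℝ)⁻¹ := by positivity
  have hgeo : ∀ F : Finset ℕ, ∑ d ∈ F, ((b : ℝ)⁻¹) ^ d ≤ 2 := by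
    intro F
    calc ∑ d ∈ F, ((b : ℝ)⁻¹) ^ d ≤ ∑ d ∈ F, (1 / 2 : ℝ) ^ d :=
          Finset.sum_le_sum fun d _ => pow_le_pow_left₀ hinv0 hinv d
      _ ≤ ∑' d : ℕ, (1 / 2 : ℝ) ^ d := summable_geometric_two.sum_le_tsum F (fun _ _ => by positivity)
      _ = 2 := tsum_geometric_two
  rw [← Finset.sum_filter_add_sum_filter_not T (fun q => p ≤ q)]
  have h1 : ∑ q ∈ T.filter (fun q => p ≤ q), ((b : ℝ) ^ ((p - q) + (q - p)))⁻¹ ≤ 2 := by
    have hinj : Set.InjOn (fun q => q - p) (T.filter (fun q => p ≤ q) : Set ℕ) := by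
      intro x hx y hy hxy
      rw [Finset.mem_coe, mem_filter] at hx hy
      have : x - p = y - p := hxy
      omega
    calc _ = ∑ q ∈ T.filter (fun q => p ≤ q), ((b : ℝ)⁻¹) ^ (q - p) := by
          refine Finset.sum_congr rfl fun q hq => ?_
          rw [mem_filter] at hq
          have : (p - q) + (q - p) = q - p := by omega
          rw [this, inv_pow]
      _ = ∑ d ∈ (T.filter (fun q => p ≤ q)).image (fun q => q - p), ((b : ℝ)⁻¹) ^ d := by
          rw [Finset.sum_image hinj]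
      _ ≤ 2 := hgeo _
  have h2 : ∑ q ∈ T.filter (fun q => ¬ p ≤ q), ((b : ℝ) ^ ((p - q) + (q - p)))⁻¹ ≤ 2 := by
    have hinj : Set.InjOn (fun q => p - q) (T.filter (fun q => ¬ p ≤ q) : Set ℕ) := by
      intro x hx y hy hxy
      rw [Finset.mem_coe, mem_filter] at hx hy
      have : p - x = p - y := hxy
      omega
    calc _ = ∑ q ∈ T.filter (fun q => ¬ p ≤ q), ((b : ℝ)⁻¹) ^ (p - q) := by
          refine Finset.sum_congr rfl fun q hq => ?_
          rw [mem_filter] at hq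
          have : (p - q) + (q - p) = p - q := by omega
          rw [this, inv_pow]
      _ = ∑ d ∈ (T.filter (fun q => ¬ p ≤ q)).image (fun q => p - q), ((b : ℝ)⁻¹) ^ d := by
          rw [Finset.sum_image hinj]
      _ ≤ 2 := hgeo _
  linarith

/-- the number of the primes in `(x, 2x]` -/
lemma card_primes : ∃ C : ℝ, 0 < C ∧ ∀ x : ℕ, 2 ≤ x → ∀ T : Finset ℕ,
    (∀ p ∈ T, p.Prime ∧ x < p ∧ p ≤ 2 * x) → (T.card : ℝ) ≤ C * x / Real.log x := by
  obtain ⟨C0, hC01, hBT⟩ := Pool.Agent.Helper601.brun_titchmarsh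
  refine ⟨C0, by linarith, fun x hx T hT => ?_⟩
  refine le_trans ?_ (hBT (x + 1) 1 x hx (Or.inl rfl))
  have hsub : T ⊆ ((Finset.range x).filter (fun k => (x + 1 + k * 1).Prime)).image
      (fun k => x + 1 + k) := by
    intro p hp
    obtain ⟨h1, h2, h3⟩ := hT p hp
    rw [mem_image]
    refine ⟨p - (x + 1), ?_, by omega⟩
    rw [mem_filter, mem_range]
    have : x + 1 + (p - (x + 1)) * 1 = p := by omega
    rw [this]
    exact ⟨by omega, h1⟩
  exact_mod_cast (Finset.card_le_card hsub).trans Finset.card_image_le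

lemma log_div_le {x p : ℕ} (hx : 2 ≤ x) (h1 : x < p) (h2 : p ≤ 2 * x) :
    Real.log p / p ≤ 2 * Real.log x / x := by
  have hx2 : (2 : ℝ) ≤ x := by exact_mod_cast hx
  have hx0 : (0 : ℝ) < x := by linarith
  have hpx : (x : ℝ) ≤ p := by exact_mod_cast h1.le
  have hp0 : (0 : ℝ) < p := by linarith
  have hp2 : (p : ℝ) ≤ 2 * x := by exact_mod_cast h2
  have h3 : Real.log p ≤ 2 * Real.log x := by
    calc Real.log p ≤ Real.log (x * x) := Real.log_le_log hp0 (by nlinarith)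
      _ = 2 * Real.log x := by rw [Real.log_mul hx0.ne' hx0.ne']; ring
  have h4 : 0 ≤ Real.log p := Real.log_natCast_nonneg p
  exact div_le_div₀ (by linarith) h3 hx0 hpx

theorem block {b : ℕ} (hb : 2 ≤ b) : ∃ K P : ℕ, 1 ≤ K ∧ ∀ κ : ℝ, 0 < κ → ∃ δ : ℝ, 0 < δ ∧ δ < 1 ∧
    ∀ x ≥ P, ∀ z : ℕ, K * z ≤ x → ∀ T : Finset ℕ, (∀ p ∈ T, p.Prime ∧ x < p ∧ p ≤ 2 * x) →
    κ ≤ ∑ p ∈ T, Real.log p / p → ∀ t : ℕ, 2 * x ≤ t → ∀ j : ℕ, 1 ≤ j → j ≤ b ^ (2 * z) →
    (((Ico (j * b ^ (t - z)) ((j + 1) * b ^ (t - z))).filter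
      (fun n => ∀ p ∈ T, ¬ (roughPart p (n / b ^ (t - p))).Prime)).card : ℝ) ≤
      (1 - δ) * (b : ℝ) ^ (t - z) := by
  classical
  obtain ⟨c, hc, K1, P1, hK1, hlow⟩ := cell_low hb
  obtain ⟨C1, hC1, P2, hup⟩ := cell_up hb
  obtain ⟨C2, hC2, P3, hpair⟩ := cell_pair hb
  obtain ⟨C3, hC3, hcard⟩ := card_primes
  refine ⟨max K1 32, max (max P1 P2) (max P3 2), (le_max_right _ _).trans' (by norm_num),
    fun κ hκ => ?_⟩
  set C := C1 + C2 with hC
  set D := C * ((2 * C3) ^ 2 + 4 * (2 * C3)) with hD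
  have hD0 : 0 < D := by positivity
  refine ⟨min ((c * κ) ^ 2 / D) (1 / 2), by positivity, (min_le_right _ _).trans_lt (by norm_num),
    fun x hx z hz T hT hκT t ht j hj1 hj2 => ?_⟩
  have hxP1 : P1 ≤ x := ((le_max_left _ _).trans (le_max_left _ _)).trans hx
  have hxP2 : P2 ≤ x := ((le_max_right _ _).trans (le_max_left _ _)).trans hx
  have hxP3 : P3 ≤ x := ((le_max_left _ _).trans (le_max_right _ _)).trans hx
  have hx2 : 2 ≤ x := ((le_max_right _ _).trans (le_max_right _ _)).trans hx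
  have hK1z : K1 * z ≤ x := (Nat.mul_le_mul_right z (le_max_left _ _)).trans hz
  have h32z : 32 * z ≤ x := (Nat.mul_le_mul_right z (le_max_right _ _)).trans hz
  have hzx : z ≤ x := by omega
  have hx2r : (2 : ℝ) ≤ x := by exact_mod_cast hx2
  have hx0 : (0 : ℝ) < x := by linarith
  have hlogx : 0 < Real.log x := Real.log_pos (by linarith)
  have hb0 : (0 : ℝ) < b := by positivity
  set N := (b : ℝ) ^ (t - z) with hN
  have hN0 : 0 < N := by positivity
  set Ω := Ico (j * b ^ (t - z)) ((j + 1) * b ^ (t - z)) with hΩ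
  have hΩcard : (Ω.card : ℝ) = N := by
    rw [hΩ, Nat.card_Ico]
    have : (j + 1) * b ^ (t - z) - j * b ^ (t - z) = b ^ (t - z) := by
      rw [add_mul, one_mul]; omega
    rw [this]; push_cast; rfl
  -- first moment
  have hfirst : c * κ * N ≤ ∑ n ∈ Ω, SS T b t n := by
    unfold SS
    rw [Finset.sum_comm]
    calc c * κ * N ≤ c * (∑ p ∈ T, Real.log p / p) * N := by gcongr
      _ = ∑ p ∈ T, c * (Real.log p / p) * N := by rw [Finset.mul_sum, Finset.sum_mul]
      _ ≤ _ := by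
        refine Finset.sum_le_sum fun p hp => ?_
        obtain ⟨h1, h2, h3⟩ := hT p hp
        rw [hΩ, sum_one hb (by omega) (by omega)]
        have h4 := hlow p (by omega) z (by omega) j hj1 hj2
        have h5 : N = (b : ℝ) ^ (t - p) * (b : ℝ) ^ (p - z) := by
          rw [hN, ← pow_add]; congr 1; omega
        calc c * (Real.log p / p) * N = (b : ℝ) ^ (t - p) * (c * (Real.log p / p) * (b : ℝ) ^ (p - z)) := by
              rw [h5]; ring
          _ ≤ _ := mul_le_mul_of_nonneg_left h4 (by positivity)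
  -- second moment
  set W := 2 * Real.log x / x with hW
  have hW0 : 0 < W := by positivity
  have hTW : (T.card : ℝ) * W ≤ 2 * C3 := by
    calc (T.card : ℝ) * W ≤ (C3 * x / Real.log x) * W := by
          gcongr
          exact hcard x hx2 T hT
      _ = 2 * C3 := by rw [hW]; field_simp
  have hF : ∀ p ∈ T, ∀ q ∈ T, p ≤ q →
      ∑ n ∈ Ω, XX p (n / b ^ (t - p)) * XX q (n / b ^ (t - q)) ≤
        C * (W ^ 2 + ((b : ℝ) ^ ((p - q) + (q - p)))⁻¹ * W) * N := by
    intro p hp q hq hpq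
    obtain ⟨h1, h2, h3⟩ := hT p hp
    obtain ⟨h1', h2', h3'⟩ := hT q hq
    have hwp : Real.log p / p ≤ W := log_div_le hx2 h2 h3
    have hwp0 : 0 ≤ Real.log p / p := by
      have := Real.log_natCast_nonneg p
      positivity
    rcases Nat.eq_or_lt_of_le hpq with h | h
    · subst h
      have e : (p - p) + (p - p) = 0 := by omega
      rw [e, pow_zero, inv_one, one_mul]
      simp only [XX_sq]
      rw [hΩ, sum_one hb (by omega) (by omega)]
      have h5 : N = (b : ℝ) ^ (t - p) * (b : ℝ) ^ (p - z) := by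
        rw [hN, ← pow_add]; congr 1; omega
      calc (b : ℝ) ^ (t - p) * (cnt b z j p : ℝ) ≤
            (b : ℝ) ^ (t - p) * (C1 * (Real.log p / p) * (b : ℝ) ^ (p - z)) :=
            mul_le_mul_of_nonneg_left (hup p (by omega) z (by omega) j hj1 hj2) (by positivity)
        _ = C1 * (Real.log p / p) * N := by rw [h5]; ring
        _ ≤ C * (W ^ 2 + W) * N := by
            gcongr
            · linarith
            · nlinarith
    · rw [hΩ, sum_two hb (by omega) hpq (by omega)]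
      obtain ⟨d, hd⟩ := Nat.exists_eq_add_of_lt h
      have hq' : q = p + (d + 1) := by omega
      have e : (p - q) + (q - p) = d + 1 := by omega
      have e3 : q - p = d + 1 := by omega
      rw [e, e3]
      have h6 := hpair p (by omega) (d + 1) (by omega) (by omega) z (by omega) j hj1 hj2
      rw [← hq'] at h6
      have h5 : N = (b : ℝ) ^ (t - q) * (b : ℝ) ^ (q - z) := by
        rw [hN, ← pow_add]; congr 1; omega
      calc (b : ℝ) ^ (t - q) * _ ≤ (b : ℝ) ^ (t - q) *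
            (C2 * ((Real.log p / p) ^ 2 + ((b : ℝ) ^ (d + 1))⁻¹ * (Real.log p / p)) * (b : ℝ) ^ (q - z)) :=
            mul_le_mul_of_nonneg_left h6 (by positivity)
        _ = C2 * ((Real.log p / p) ^ 2 + ((b : ℝ) ^ (d + 1))⁻¹ * (Real.log p / p)) * N := by rw [h5]; ring
        _ ≤ C * (W ^ 2 + ((b : ℝ) ^ (d + 1))⁻¹ * W) * N := by
            gcongr
            linarith
  have hF' : ∀ p ∈ T, ∀ q ∈ T,
      ∑ n ∈ Ω, XX p (n / b ^ (t - p)) * XX q (n / b ^ (t - q)) ≤
        C * (W ^ 2 + ((b : ℝ) ^ ((p - q) + (q - p)))⁻¹ * W) * N := by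
    intro p hp q hq
    rcases le_total p q with h | h
    · exact hF p hp q hq h
    · have := hF q hq p hp h
      rw [add_comm (q - p) (p - q)] at this
      refine le_trans (le_of_eq ?_) this
      exact Finset.sum_congr rfl fun n _ => mul_comm _ _
  have hsecond : ∑ n ∈ Ω, SS T b t n ^ 2 ≤ D * N := by
    have h1 : ∑ n ∈ Ω, SS T b t n ^ 2 = ∑ p ∈ T, ∑ q ∈ T,
        ∑ n ∈ Ω, XX p (n / b ^ (t - p)) * XX q (n / b ^ (t - q)) := by
      have h2 : ∀ n, SS T b t n ^ 2 = ∑ p ∈ T, ∑ q ∈ T, XX p (n / b ^ (t - p)) * XX q (n / b ^ (t - q)) := by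
        intro n
        unfold SS
        rw [sq, Finset.sum_mul_sum]
      simp only [h2]
      rw [Finset.sum_comm]
      refine Finset.sum_congr rfl fun p _ => ?_
      rw [Finset.sum_comm]
    rw [h1]
    calc _ ≤ ∑ p ∈ T, ∑ q ∈ T, C * (W ^ 2 + ((b : ℝ) ^ ((p - q) + (q - p)))⁻¹ * W) * N :=
          Finset.sum_le_sum fun p hp => Finset.sum_le_sum fun q hq => hF' p hp q hq
      _ = C * N * ∑ p ∈ T, (T.card * W ^ 2 + (∑ q ∈ T, ((b : ℝ) ^ ((p - q) + (q - p)))⁻¹) * W) := by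
          rw [Finset.mul_sum]
          refine Finset.sum_congr rfl fun p _ => ?_
          rw [Finset.sum_mul, ← nsmul_eq_mul, ← Finset.sum_const, ← Finset.sum_add_distrib, Finset.mul_sum]
          refine Finset.sum_congr rfl fun q _ => by ring
      _ ≤ C * N * ∑ p ∈ T, (T.card * W ^ 2 + 4 * W) := by
          gcongr with p hp
          exact geo_dist hb T p
      _ = C * N * ((T.card * W) ^ 2 + 4 * (T.card * W)) := by
          rw [Finset.sum_const, nsmul_eq_mul]; ring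
      _ ≤ C * N * ((2 * C3) ^ 2 + 4 * (2 * C3)) := by gcongr
      _ = D * N := by rw [hD]; ring
  -- Cauchy-Schwarz
  set U := Ω.filter (fun n => ¬ ∀ p ∈ T, ¬ (roughPart p (n / b ^ (t - p))).Prime) with hU
  set V := Ω.filter (fun n => ∀ p ∈ T, ¬ (roughPart p (n / b ^ (t - p))).Prime) with hV
  have hUV : (V.card : ℝ) + U.card = N := by
    rw [← hΩcard]
    exact_mod_cast Finset.card_filter_add_card_filter_not _
  have hzero : ∀ n ∈ V, SS T b t n = 0 := by
    intro n hn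
    rw [hV, mem_filter] at hn
    unfold SS XX
    refine Finset.sum_eq_zero fun p hp => ?_
    rw [if_neg (hn.2 p hp)]
  have hsupp : ∑ n ∈ Ω, SS T b t n = ∑ n ∈ U, SS T b t n := by
    rw [← Finset.sum_filter_add_sum_filter_not Ω
      (fun n => ∀ p ∈ T, ¬ (roughPart p (n / b ^ (t - p))).Prime), Finset.sum_eq_zero hzero, zero_add]
  have hCS : (∑ n ∈ Ω, SS T b t n) ^ 2 ≤ U.card * (D * N) := by
    rw [hsupp]
    refine (sq_sum_le_card_mul_sum_sq).trans ?_
    refine mul_le_mul_of_nonneg_left ?_ (Nat.cast_nonneg _)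
    refine le_trans ?_ hsecond
    exact Finset.sum_le_sum_of_subset_of_nonneg (filter_subset _ _) fun _ _ _ => sq_nonneg _
  have hlowU : (c * κ) ^ 2 / D * N ≤ U.card := by
    have h1 : (c * κ * N) ^ 2 ≤ U.card * (D * N) := by
      refine le_trans ?_ hCS
      exact pow_le_pow_left₀ (by positivity) hfirst 2
    rw [div_mul_eq_mul_div, div_le_iff₀ hD0]
    have h2 : (c * κ) ^ 2 * N * N ≤ U.card * D * N := by
      calc (c * κ) ^ 2 * N * N = (c * κ * N) ^ 2 := by ring
        _ ≤ U.card * (D * N) := h1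
        _ = _ := by ring
    exact le_of_mul_le_mul_right h2 hN0
  have hfin : min ((c * κ) ^ 2 / D) (1 / 2) * N ≤ U.card := by
    refine le_trans ?_ hlowU
    gcongr
    exact min_le_left _ _
  linarith

end Pool.Agent.N176.GP
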