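import Mathlib
import Pool.Agent.N176.GP.Block

set_option autoImplicit false

/-!
# Iteration over the levels
-/

namespace Pool.Agent.N176.GP

open Finset Filter Topology
open Pool.Agent.H305R2 (roughPart)

open Classical in
theorem window {b : ℕ} (hb : 2 ≤ b) : ∃ K : ℕ, 1 ≤ K ∧ ∀ κ : ℝ, 0 < κ → ∀ a : ℕ, 1 ≤ a →
    ∃ δ : ℝ, 0 < δ ∧ δ < 1 ∧ ∀ (S : Set ℕ) (x0 : ℕ), (∀ x ≥ x0,
      κ ≤ ∑ p ∈ (Ioc x (2 ^ a * x)).filter (fun p => p.Prime ∧ p ∈ S), Real.log p / p) →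
    ∃ z0 : ℕ, ∀ z ≥ z0, ∀ j : ℕ, 1 ≤ j → j ≤ b ^ (2 * z) →
    (((Ico (j * b ^ (2 ^ a * K * z - z)) ((j + 1) * b ^ (2 ^ a * K * z - z))).filter
      (fun n => ∀ p ∈ Ioc z (2 ^ a * K * z), p.Prime → p ∈ S →
        ¬ (roughPart p (n / b ^ (2 ^ a * K * z - p))).Prime)).card : ℝ) ≤
      (1 - δ) * (b : ℝ) ^ (2 ^ a * K * z - z) := by
  obtain ⟨K, P, hK, hblock⟩ := block hb
  refine ⟨K, hK, fun κ hκ a ha => ?_⟩
  have ha0 : (0 : ℝ) < a := by exact_mod_cast ha
  obtain ⟨δ, hδ, hδ1, hbl⟩ := hblock (κ / a) (by positivity)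
  refine ⟨δ, hδ, hδ1, fun S x0 hS => ⟨max P (max x0 1), fun z hz j hj1 hj2 => ?_⟩⟩
  have hzP : P ≤ z := (le_max_left _ _).trans hz
  have hzx0 : x0 ≤ z := ((le_max_left _ _).trans (le_max_right _ _)).trans hz
  have hz1 : 1 ≤ z := ((le_max_right _ _).trans (le_max_right _ _)).trans hz
  have hzK : z ≤ K * z := Nat.le_mul_of_pos_left z hK
  -- split the window
  have hsplit : ∀ i : ℕ, ∑ p ∈ (Ioc (K * z) (2 ^ i * (K * z))).filter (fun p => p.Prime ∧ p ∈ S),
      Real.log p / p = ∑ l ∈ range i, ∑ p ∈ (Ioc (2 ^ l * (K * z)) (2 * (2 ^ l * (K * z)))).filter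
        (fun p => p.Prime ∧ p ∈ S), Real.log p / p := by
    intro i
    induction i with
    | zero => simp
    | succ i ih =>
      rw [Finset.sum_range_succ, ← ih, Finset.sum_filter, Finset.sum_filter, Finset.sum_filter]
      have e : 2 ^ (i + 1) * (K * z) = 2 * (2 ^ i * (K * z)) := by ring
      rw [e]
      have h1 : K * z ≤ 2 ^ i * (K * z) := Nat.le_mul_of_pos_left _ (by positivity)
      have h2 : 2 ^ i * (K * z) ≤ 2 * (2 ^ i * (K * z)) := by omega
      rw [← Finset.sum_union (by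
        rw [Finset.disjoint_left]
        intro y hy1 hy2
        rw [mem_Ioc] at hy1 hy2
        omega)]
      rw [Finset.Ioc_union_Ioc_eq_Ioc h1 h2]
  have hκ2 : κ ≤ ∑ l ∈ range a, ∑ p ∈ (Ioc (2 ^ l * (K * z)) (2 * (2 ^ l * (K * z)))).filter
        (fun p => p.Prime ∧ p ∈ S), Real.log p / p := by
    rw [← hsplit a]
    exact hS (K * z) (by omega)
  obtain ⟨i, hi, hi2⟩ : ∃ i ∈ range a, κ / a ≤ ∑ p ∈ (Ioc (2 ^ i * (K * z))
      (2 * (2 ^ i * (K * z)))).filter (fun p => p.Prime ∧ p ∈ S), Real.log p / p := by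
    by_contra hcon
    push Not at hcon
    have h1 := Finset.sum_lt_sum_of_nonempty (s := range a) (by simpa using (by omega : a ≠ 0)) hcon
    rw [Finset.sum_const, card_range, nsmul_eq_mul, mul_div_cancel₀ _ ha0.ne'] at h1
    linarith
  rw [mem_range] at hi
  have h2i : 1 ≤ 2 ^ i := Nat.one_le_two_pow
  have hx1 : K * z ≤ 2 ^ i * (K * z) := Nat.le_mul_of_pos_left _ (by positivity)
  have hx2 : 2 * (2 ^ i * (K * z)) ≤ 2 ^ a * K * z := by
    have h3 : 2 ^ (i + 1) ≤ 2 ^ a := Nat.pow_le_pow_right (by norm_num) (by omega)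
    calc 2 * (2 ^ i * (K * z)) = 2 ^ (i + 1) * (K * z) := by ring
      _ ≤ 2 ^ a * (K * z) := Nat.mul_le_mul_right _ h3
      _ = _ := by ring
  have hmain := hbl (2 ^ i * (K * z)) (by omega) z hx1
    ((Ioc (2 ^ i * (K * z)) (2 * (2 ^ i * (K * z)))).filter (fun p => p.Prime ∧ p ∈ S)) (by
      intro p hp
      rw [mem_filter, mem_Ioc] at hp
      exact ⟨hp.2.1, hp.1.1, hp.1.2⟩) hi2 (2 ^ a * K * z) hx2 j hj1 hj2
  refine le_trans ?_ hmain
  have hsub : (Ico (j * b ^ (2 ^ a * K * z - z)) ((j + 1) * b ^ (2 ^ a * K * z - z))).filter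
      (fun n => ∀ p ∈ Ioc z (2 ^ a * K * z), p.Prime → p ∈ S →
        ¬ (roughPart p (n / b ^ (2 ^ a * K * z - p))).Prime) ⊆
      (Ico (j * b ^ (2 ^ a * K * z - z)) ((j + 1) * b ^ (2 ^ a * K * z - z))).filter
      (fun n => ∀ p ∈ (Ioc (2 ^ i * (K * z)) (2 * (2 ^ i * (K * z)))).filter
        (fun p => p.Prime ∧ p ∈ S), ¬ (roughPart p (n / b ^ (2 ^ a * K * z - p))).Prime) := by
    intro n hn
    rw [mem_filter] at hn ⊢
    refine ⟨hn.1, fun p hp => ?_⟩
    rw [mem_filter, mem_Ioc] at hp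
    exact hn.2 p (by rw [mem_Ioc]; omega) hp.2.1 hp.2.2
  exact_mod_cast Finset.card_le_card hsub

/-- some index in `(u, v]` in the set `S` has a prime rough part; `n` has the level `t` -/
def hit (S : Set ℕ) (b t n u v : ℕ) : Prop :=
  ∃ p ∈ Ioc u v, p.Prime ∧ p ∈ S ∧ (roughPart p (n / b ^ (t - p))).Prime

open Classical in
/-- the number of the blocks with a hit -/
noncomputable def GG (S : Set ℕ) (b Λ z k n : ℕ) : ℕ :=
  ((range k).filter (fun i => hit S b (Λ ^ k * z) n (Λ ^ i * z) (Λ ^ (i + 1) * z))).card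

lemma div_level {b : ℕ} (hb : 2 ≤ b) {p t t' m r : ℕ} (hpt : p ≤ t) (htt : t ≤ t')
    (hr : r < b ^ (t' - t)) : (m * b ^ (t' - t) + r) / b ^ (t' - p) = m / b ^ (t - p) := by
  have e : b ^ (t' - p) = b ^ (t' - t) * b ^ (t - p) := by rw [← pow_add]; congr 1; omega
  have hB : 0 < b ^ (t' - t) := by positivity
  rw [e, ← Nat.div_div_eq_div_mul, Nat.add_div_of_dvd_right (dvd_mul_left _ m), Nat.mul_div_cancel _ hB,
    Nat.div_eq_of_lt hr, add_zero]

open Classical in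
lemma GG_succ {S : Set ℕ} {b Λ z k m r : ℕ} (hb : 2 ≤ b) (hΛ : 1 ≤ Λ)
    (hr : r < b ^ (Λ ^ (k + 1) * z - Λ ^ k * z)) :
    GG S b Λ z (k + 1) (m * b ^ (Λ ^ (k + 1) * z - Λ ^ k * z) + r) = GG S b Λ z k m +
      if hit S b (Λ ^ (k + 1) * z) (m * b ^ (Λ ^ (k + 1) * z - Λ ^ k * z) + r)
        (Λ ^ k * z) (Λ ^ (k + 1) * z) then 1 else 0 := by
  unfold GG
  rw [Finset.range_add_one, Finset.filter_insert]
  have hmono : ∀ i l : ℕ, i ≤ l → Λ ^ i * z ≤ Λ ^ l * z := fun i l h =>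
    Nat.mul_le_mul_right z (Nat.pow_le_pow_right hΛ h)
  have hcongr : (range k).filter (fun i => hit S b (Λ ^ (k + 1) * z)
      (m * b ^ (Λ ^ (k + 1) * z - Λ ^ k * z) + r) (Λ ^ i * z) (Λ ^ (i + 1) * z)) =
      (range k).filter (fun i => hit S b (Λ ^ k * z) m (Λ ^ i * z) (Λ ^ (i + 1) * z)) := by
    refine Finset.filter_congr fun i hi => ?_
    rw [mem_range] at hi
    unfold hit
    refine exists_congr fun p => and_congr_right fun hp => ?_
    rw [mem_Ioc] at hp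
    rw [div_level hb (hp.2.trans (hmono _ _ (by omega))) (hmono _ _ (Nat.le_succ k)) hr]
  rw [hcongr]
  split_ifs with h
  · rw [Finset.card_insert_of_notMem (by simp)]
  · simp

open Classical in
theorem iter {b : ℕ} (hb : 2 ≤ b) {S : Set ℕ} {Λ z0 : ℕ} {δ : ℝ} (hΛ : 2 ≤ Λ) (hδ : 0 < δ) (hδ1 : δ < 1)
    (hz0 : 1 ≤ z0)
    (hw : ∀ z ≥ z0, ∀ j : ℕ, 1 ≤ j → j ≤ b ^ (2 * z) →
      (((Ico (j * b ^ (Λ * z - z)) ((j + 1) * b ^ (Λ * z - z))).filter
        (fun n => ∀ p ∈ Ioc z (Λ * z), p.Prime → p ∈ S →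
          ¬ (roughPart p (n / b ^ (Λ * z - p))).Prime)).card : ℝ) ≤ (1 - δ) * (b : ℝ) ^ (Λ * z - z))
    {z : ℕ} (hz : z0 ≤ z) {j : ℕ} (hj1 : 1 ≤ j) (hj2 : j ≤ b ^ (2 * z)) (k : ℕ) :
    ∑ n ∈ Ico (j * b ^ (Λ ^ k * z - z)) ((j + 1) * b ^ (Λ ^ k * z - z)),
      ((1 / 2 : ℝ)) ^ (GG S b Λ z k n) ≤ (1 - δ / 2) ^ k * (b : ℝ) ^ (Λ ^ k * z - z) := by
  have hmono : ∀ i l : ℕ, i ≤ l → Λ ^ i * z ≤ Λ ^ l * z := fun i l h =>
    Nat.mul_le_mul_right z (Nat.pow_le_pow_right (by omega) h)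
  have hz1 : 1 ≤ z := by omega
  induction k with
  | zero =>
    simp only [pow_zero, one_mul, Nat.sub_self, mul_one]
    rw [Nat.Ico_succ_singleton, Finset.sum_singleton]
    unfold GG
    simp
  | succ k ih =>
    set t := Λ ^ k * z with ht
    have ht' : Λ ^ (k + 1) * z = Λ * t := by rw [ht]; ring
    have hzt : z ≤ t := by
      have := hmono 0 k (Nat.zero_le k)
      simpa using this
    have htt : t ≤ Λ * t := Nat.le_mul_of_pos_left t (by omega)
    set B := b ^ (Λ * t - t) with hB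
    have hBpos : 0 < B := by positivity
    have e : b ^ (Λ * t - z) = b ^ (t - z) * B := by
      rw [hB, ← pow_add]; congr 1; omega
    have er : (b : ℝ) ^ (Λ * t - z) = (b : ℝ) ^ (t - z) * B := by
      have : ((b ^ (Λ * t - z) : ℕ) : ℝ) = ((b ^ (t - z) * B : ℕ) : ℝ) := by rw [e]
      push_cast at this
      exact this
    rw [ht', e, ← mul_assoc, ← mul_assoc, sum_cells B _ _ (Nat.mul_le_mul_right _ (Nat.le_succ j)), er]
    have hin : ∀ m ∈ Ico (j * b ^ (t - z)) ((j + 1) * b ^ (t - z)),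
        ∑ r ∈ range B, ((1 / 2 : ℝ)) ^ (GG S b Λ z (k + 1) (m * B + r)) ≤
          (1 / 2 : ℝ) ^ (GG S b Λ z k m) * ((1 - δ / 2) * B) := by
      intro m hm
      rw [mem_Ico] at hm
      have hm1 : 1 ≤ m := by
        have : 1 ≤ j * b ^ (t - z) := Nat.mul_pos hj1 (by positivity)
        omega
      have hm2 : m ≤ b ^ (2 * t) := by
        rcases Nat.eq_or_lt_of_le hzt with h | h
        · rw [← h, Nat.sub_self, pow_zero, mul_one, mul_one] at hm
          rw [← h]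
          omega
        · have h1 : j + 1 ≤ b ^ (2 * z + 1) := by
            rw [pow_succ]
            have : 1 ≤ b ^ (2 * z) := Nat.one_le_pow _ _ (by omega)
            nlinarith
          have h2 : (j + 1) * b ^ (t - z) ≤ b ^ (2 * t) := by
            calc (j + 1) * b ^ (t - z) ≤ b ^ (2 * z + 1) * b ^ (t - z) := Nat.mul_le_mul_right _ h1
              _ = b ^ (2 * z + 1 + (t - z)) := (pow_add _ _ _).symm
              _ ≤ b ^ (2 * t) := Nat.pow_le_pow_right (by omega) (by omega)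
          omega
      have hG : ∀ r ∈ range B, ((1 / 2 : ℝ)) ^ (GG S b Λ z (k + 1) (m * B + r)) =
          (1 / 2 : ℝ) ^ (GG S b Λ z k m) *
            (1 / 2 + (1 / 2) * if ¬ hit S b (Λ * t) (m * B + r) t (Λ * t) then (1 : ℝ) else 0) := by
        intro r hr
        rw [mem_range] at hr
        have h1 := GG_succ (S := S) (b := b) (Λ := Λ) (z := z) (k := k) (m := m) (r := r) hb (by omega)
          (by rw [ht', ← ht]; exact hr)
        rw [ht', ← ht] at h1
        rw [h1, pow_add]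
        congr 1
        by_cases hh : hit S b (Λ * t) (m * B + r) t (Λ * t)
        · rw [if_pos hh, if_neg (not_not.2 hh)]; norm_num
        · rw [if_neg hh, if_pos hh]; norm_num
      rw [Finset.sum_congr rfl hG, ← Finset.mul_sum]
      refine mul_le_mul_of_nonneg_left ?_ (by positivity)
      rw [Finset.sum_add_distrib, Finset.sum_const, card_range, nsmul_eq_mul, ← Finset.mul_sum]
      have hno : ∑ r ∈ range B, (if ¬ hit S b (Λ * t) (m * B + r) t (Λ * t) then (1 : ℝ) else 0) ≤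
          (1 - δ) * B := by
        have h1 := hw t (hz.trans hzt) m hm1 hm2
        have h2 : ∑ r ∈ range B, (if ¬ hit S b (Λ * t) (m * B + r) t (Λ * t) then (1 : ℝ) else 0) =
            ∑ n ∈ Ico (m * B) ((m + 1) * B),
              (if ¬ hit S b (Λ * t) n t (Λ * t) then (1 : ℝ) else 0) := by
          rw [sum_cells B m (m + 1) (Nat.le_succ m), Nat.Ico_succ_singleton, Finset.sum_singleton]
        rw [h2, ← Finset.sum_filter, Finset.sum_const, nsmul_eq_mul, mul_one]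
        have h3 : (b : ℝ) ^ (Λ * t - t) = B := by rw [hB]; push_cast; rfl
        rw [h3] at h1
        refine le_trans ?_ h1
        have hsub : (Ico (m * B) ((m + 1) * B)).filter (fun n => ¬ hit S b (Λ * t) n t (Λ * t)) ⊆
            (Ico (m * B) ((m + 1) * B)).filter (fun n => ∀ p ∈ Ioc t (Λ * t), p.Prime → p ∈ S →
              ¬ (roughPart p (n / b ^ (Λ * t - p))).Prime) := by
          intro n hn
          rw [mem_filter] at hn ⊢
          refine ⟨hn.1, fun p hp hpp hpS hpr => hn.2 ⟨p, hp, hpp, hpS, hpr⟩⟩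
        exact_mod_cast Finset.card_le_card hsub
      linarith
    refine (Finset.sum_le_sum hin).trans ?_
    rw [← Finset.sum_mul]
    have hδ2 : 0 ≤ (1 - δ / 2) * (B : ℝ) := by
      have : (0 : ℝ) ≤ B := Nat.cast_nonneg _
      have : 0 ≤ 1 - δ / 2 := by linarith
      positivity
    calc _ ≤ ((1 - δ / 2) ^ k * (b : ℝ) ^ (t - z)) * ((1 - δ / 2) * B) :=
          mul_le_mul_of_nonneg_right ih hδ2
      _ = _ := by ring

end Pool.Agent.N176.GP
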