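import Mathlib
import Pool.Agent.N176.GP.Iter

set_option autoImplicit false

/-!
# The measure of the amplitudes with few hits, and the almost everywhere statement
-/

namespace Pool.Agent.N176.GP

open Finset Filter Topology MeasureTheory
open Pool.Agent.H305R2 (roughPart)

/-- the integer with the first `p` digits of `β` in base `b` -/
noncomputable def NB (b : ℕ) (β : ℝ) (p : ℕ) : ℕ := ⌈β * (b : ℝ) ^ p⌉₊ - 1

lemma NB_spec {b : ℕ} (hb : 2 ≤ b) {β : ℝ} (hβ : 0 < β) (p : ℕ) :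
    (NB b β p : ℝ) < β * (b : ℝ) ^ p ∧ β * (b : ℝ) ^ p ≤ NB b β p + 1 := by
  have hb0 : (0 : ℝ) < b := by positivity
  have hpos : 0 < β * (b : ℝ) ^ p := by positivity
  have h0 : 0 < ⌈β * (b : ℝ) ^ p⌉₊ := Nat.ceil_pos.2 hpos
  have e : NB b β p + 1 = ⌈β * (b : ℝ) ^ p⌉₊ := by unfold NB; omega
  constructor
  · have h1 : NB b β p < ⌈β * (b : ℝ) ^ p⌉₊ := by omega
    exact Nat.lt_ceil.1 h1
  · have h1 : β * (b : ℝ) ^ p ≤ ((NB b β p + 1 : ℕ) : ℝ) := by rw [e]; exact Nat.le_ceil _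
    push_cast at h1
    exact h1

lemma NB_div {b : ℕ} (hb : 2 ≤ b) {β : ℝ} (hβ : 0 < β) {p t : ℕ} (hpt : p ≤ t) :
    NB b β t / b ^ (t - p) = NB b β p := by
  obtain ⟨h1, h2⟩ := NB_spec hb hβ t
  obtain ⟨h3, h4⟩ := NB_spec hb hβ p
  set B := b ^ (t - p) with hB
  have hBpos : 0 < B := by positivity
  have hB0 : (0 : ℝ) < B := by exact_mod_cast hBpos
  have e : β * (b : ℝ) ^ t = β * (b : ℝ) ^ p * B := by
    rw [hB]; push_cast
    rw [mul_assoc, ← pow_add]
    congr 2; omega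
  rw [e] at h1 h2
  rw [Nat.div_eq_iff hBpos]
  constructor
  · have h5 : ((B * NB b β p : ℕ) : ℝ) < ((NB b β t + 1 : ℕ) : ℝ) := by
      push_cast
      calc (B : ℝ) * NB b β p < B * (β * (b : ℝ) ^ p) := mul_lt_mul_of_pos_left h3 hB0
        _ = β * (b : ℝ) ^ p * B := by ring
        _ ≤ _ := h2
    have h6 : B * NB b β p < NB b β t + 1 := by exact_mod_cast h5
    nlinarith
  · have h5 : ((NB b β t : ℕ) : ℝ) < ((B * (NB b β p + 1) : ℕ) : ℝ) := by
      push_cast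
      calc (NB b β t : ℝ) < β * (b : ℝ) ^ p * B := h1
        _ = B * (β * (b : ℝ) ^ p) := by ring
        _ ≤ B * (NB b β p + 1) := mul_le_mul_of_nonneg_left h4 hB0.le
    have h6 : NB b β t < B * (NB b β p + 1) := by exact_mod_cast h5
    have h7 : B * (NB b β p + 1) = NB b β p * B + B := by ring
    omega

open Classical in
/-- the number of the primes `p ≤ n` in `S` with prime rough part -/
noncomputable def MB (b : ℕ) (S : Set ℕ) (β : ℝ) (n : ℕ) : ℕ :=
  ((range (n + 1)).filter (fun p => p.Prime ∧ p ∈ S ∧ (roughPart p (NB b β p)).Prime)).card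

/-- there is an index in `(u, v]` and in `S` with prime rough part -/
def hitB (b : ℕ) (S : Set ℕ) (β : ℝ) (u v : ℕ) : Prop :=
  ∃ p ∈ Ioc u v, p.Prime ∧ p ∈ S ∧ (roughPart p (NB b β p)).Prime

open Classical in
lemma MB_mono_hit {b : ℕ} {S : Set ℕ} {β : ℝ} {u v : ℕ} (huv : u ≤ v) :
    MB b S β u + (if hitB b S β u v then 1 else 0) ≤ MB b S β v := by
  unfold MB
  have hsub : (range (u + 1)).filter (fun p => p.Prime ∧ p ∈ S ∧ (roughPart p (NB b β p)).Prime) ⊆
      (range (v + 1)).filter (fun p => p.Prime ∧ p ∈ S ∧ (roughPart p (NB b β p)).Prime) := by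
    intro p hp
    rw [mem_filter, mem_range] at hp ⊢
    exact ⟨by omega, hp.2⟩
  split_ifs with h
  · obtain ⟨p, hp, hpp⟩ := h
    rw [mem_Ioc] at hp
    rw [← Finset.card_insert_of_notMem (a := p) (by
      rw [mem_filter, mem_range]
      intro h1
      omega)]
    refine Finset.card_le_card ?_
    intro q hq
    rw [mem_insert] at hq
    rcases hq with h1 | h1
    · rw [h1, mem_filter, mem_range]
      exact ⟨by omega, hpp⟩
    · exact hsub h1
  · simpa using Finset.card_le_card hsub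

open Classical in
lemma MB_ge {b : ℕ} (hb : 2 ≤ b) {S : Set ℕ} {β : ℝ} (hβ : 0 < β) {Λ z : ℕ} (hΛ : 1 ≤ Λ) (k : ℕ) :
    MB b S β z + GG S b Λ z k (NB b β (Λ ^ k * z)) ≤ MB b S β (Λ ^ k * z) := by
  have hmono : ∀ i l : ℕ, i ≤ l → Λ ^ i * z ≤ Λ ^ l * z := fun i l h =>
    Nat.mul_le_mul_right z (Nat.pow_le_pow_right hΛ h)
  have hGG : ∀ k, GG S b Λ z k (NB b β (Λ ^ k * z)) = ((range k).filter (fun i =>
      hitB b S β (Λ ^ i * z) (Λ ^ (i + 1) * z))).card := by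
    intro k
    unfold GG
    congr 1
    refine Finset.filter_congr fun i hi => ?_
    rw [mem_range] at hi
    unfold hit hitB
    refine exists_congr fun p => and_congr_right fun hp => ?_
    rw [mem_Ioc] at hp
    rw [NB_div hb hβ (hp.2.trans (hmono _ _ (by omega)))]
  rw [hGG]
  induction k with
  | zero => simp
  | succ k ih =>
    rw [Finset.range_add_one, Finset.filter_insert]
    have h1 := MB_mono_hit (b := b) (S := S) (β := β) (hmono k (k + 1) (Nat.le_succ k))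
    have h2 : MB b S β z + ((range k).filter (fun i =>
      hitB b S β (Λ ^ i * z) (Λ ^ (i + 1) * z))).card ≤ MB b S β (Λ ^ k * z) := ih
    split_ifs with h
    · rw [if_pos h] at h1
      rw [Finset.card_insert_of_notMem (by simp)]
      omega
    · rw [if_neg h] at h1
      omega

/-- the measure of the amplitudes with few hits -/
theorem bad_measure {b : ℕ} (hb : 2 ≤ b) {S : Set ℕ} {Λ z0 : ℕ} {δ : ℝ} (hΛ : 2 ≤ Λ) (hδ : 0 < δ)
    (hδ1 : δ < 1)
    (hiter : ∀ z ≥ z0, ∀ j : ℕ, 1 ≤ j → j ≤ b ^ (2 * z) → ∀ k : ℕ,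
      ∑ n ∈ Ico (j * b ^ (Λ ^ k * z - z)) ((j + 1) * b ^ (Λ ^ k * z - z)),
      ((1 / 2 : ℝ)) ^ (GG S b Λ z k n) ≤ (1 - δ / 2) ^ k * (b : ℝ) ^ (Λ ^ k * z - z))
    {θ : ℝ} {m0 z : ℕ} (hz : z0 ≤ z) (hm0 : m0 ≤ z) (k : ℕ) :
    volume {β : ℝ | ((b : ℝ) ^ m0)⁻¹ < β ∧ β ≤ (b : ℝ) ^ m0 ∧
      (GG S b Λ z k (NB b β (Λ ^ k * z)) : ℝ) < θ * k} ≤
      ENNReal.ofReal ((b : ℝ) ^ m0 * ((2 : ℝ) ^ (θ * k) * (1 - δ / 2) ^ k)) := by
  classical
  have hb0 : (0 : ℝ) < b := by positivity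
  have hmono : z ≤ Λ ^ k * z := Nat.le_mul_of_pos_left z (by positivity)
  set t := Λ ^ k * z with ht
  set F := (Ico (b ^ (t - m0)) (b ^ (t + m0))).filter (fun n => (GG S b Λ z k n : ℝ) < θ * k) with hF
  have hbt : (0 : ℝ) < (b : ℝ) ^ t := by positivity
  have hcover : {β : ℝ | ((b : ℝ) ^ m0)⁻¹ < β ∧ β ≤ (b : ℝ) ^ m0 ∧
      (GG S b Λ z k (NB b β t) : ℝ) < θ * k} ⊆
      ⋃ n ∈ F, Set.Ioc ((n : ℝ) / (b : ℝ) ^ t) (((n : ℝ) + 1) / (b : ℝ) ^ t) := by
    rintro β ⟨h1, h2, h3⟩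
    have hβ : 0 < β := lt_trans (by positivity) h1
    obtain ⟨h4, h5⟩ := NB_spec hb hβ t
    rw [Set.mem_iUnion₂]
    refine ⟨NB b β t, ?_, ?_, ?_⟩
    · rw [hF, mem_filter, mem_Ico]
      refine ⟨⟨?_, ?_⟩, h3⟩
      · have h6 : ((b ^ (t - m0) : ℕ) : ℝ) < ((NB b β t + 1 : ℕ) : ℝ) := by
          push_cast
          calc (b : ℝ) ^ (t - m0) = ((b : ℝ) ^ m0)⁻¹ * (b : ℝ) ^ t := by
                have : (b : ℝ) ^ t = (b : ℝ) ^ m0 * (b : ℝ) ^ (t - m0) := by
                  rw [← pow_add]; congr 1; omega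
                rw [this]; field_simp
            _ < β * (b : ℝ) ^ t := mul_lt_mul_of_pos_right h1 hbt
            _ ≤ _ := h5
        have h7 : b ^ (t - m0) < NB b β t + 1 := by exact_mod_cast h6
        omega
      · have h6 : ((NB b β t : ℕ) : ℝ) < ((b ^ (t + m0) : ℕ) : ℝ) := by
          push_cast
          calc (NB b β t : ℝ) < β * (b : ℝ) ^ t := h4
            _ ≤ (b : ℝ) ^ m0 * (b : ℝ) ^ t := mul_le_mul_of_nonneg_right h2 hbt.le
            _ = _ := by rw [← pow_add, add_comm]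
        exact_mod_cast h6
    · rw [div_lt_iff₀ hbt]; exact h4
    · rw [le_div_iff₀ hbt]; exact h5
  have hcardF : (F.card : ℝ) ≤ (2 : ℝ) ^ (θ * k) * ((b : ℝ) ^ (t + m0) * (1 - δ / 2) ^ k) := by
    have h1 : (F.card : ℝ) ≤ ∑ n ∈ F, (2 : ℝ) ^ (θ * k) * (1 / 2 : ℝ) ^ (GG S b Λ z k n) := by
      rw [Finset.card_eq_sum_ones]
      push_cast
      refine Finset.sum_le_sum fun n hn => ?_
      rw [hF, mem_filter] at hn
      have h2 : (1 / 2 : ℝ) ^ (GG S b Λ z k n) = (2 : ℝ) ^ (-(GG S b Λ z k n : ℝ)) := by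
        rw [Real.rpow_neg (by norm_num), Real.rpow_natCast, one_div, inv_pow]
      rw [h2, ← Real.rpow_add (by norm_num)]
      exact Real.one_le_rpow (by norm_num) (by linarith [hn.2])
    refine h1.trans ?_
    rw [← Finset.mul_sum]
    refine mul_le_mul_of_nonneg_left ?_ (by positivity)
    calc ∑ n ∈ F, (1 / 2 : ℝ) ^ (GG S b Λ z k n) ≤
        ∑ n ∈ Ico (b ^ (t - m0)) (b ^ (t + m0)), (1 / 2 : ℝ) ^ (GG S b Λ z k n) :=
          Finset.sum_le_sum_of_subset_of_nonneg (filter_subset _ _) fun _ _ _ => by positivity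
      _ = ∑ j ∈ Ico (b ^ (z - m0)) (b ^ (z + m0)),
          ∑ n ∈ Ico (j * b ^ (t - z)) ((j + 1) * b ^ (t - z)), (1 / 2 : ℝ) ^ (GG S b Λ z k n) := by
          have e1 : b ^ (t - m0) = b ^ (z - m0) * b ^ (t - z) := by
            rw [← pow_add]; congr 1; omega
          have e2 : b ^ (t + m0) = b ^ (z + m0) * b ^ (t - z) := by
            rw [← pow_add]; congr 1; omega
          rw [e1, e2, sum_cells _ _ _ (Nat.pow_le_pow_right (by omega) (by omega))]
          refine Finset.sum_congr rfl fun j _ => ?_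
          rw [sum_cells _ _ _ (Nat.le_succ j), Nat.Ico_succ_singleton, Finset.sum_singleton]
      _ ≤ ∑ j ∈ Ico (b ^ (z - m0)) (b ^ (z + m0)), (1 - δ / 2) ^ k * (b : ℝ) ^ (t - z) := by
          refine Finset.sum_le_sum fun j hj => ?_
          rw [mem_Ico] at hj
          have hj1 : 1 ≤ j := by
            have : 1 ≤ b ^ (z - m0) := Nat.one_le_pow _ _ (by omega)
            omega
          have hj2 : j ≤ b ^ (2 * z) := by
            have : b ^ (z + m0) ≤ b ^ (2 * z) := Nat.pow_le_pow_right (by omega) (by omega)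
            omega
          exact hiter z hz j hj1 hj2 k
      _ ≤ (b : ℝ) ^ (z + m0) * ((1 - δ / 2) ^ k * (b : ℝ) ^ (t - z)) := by
          rw [Finset.sum_const, Nat.card_Ico, nsmul_eq_mul]
          have h0 : (0 : ℝ) ≤ 1 - δ / 2 := by linarith
          refine mul_le_mul_of_nonneg_right ?_ (by positivity)
          have : ((b ^ (z + m0) - b ^ (z - m0) : ℕ) : ℝ) ≤ ((b ^ (z + m0) : ℕ) : ℝ) := by
            exact_mod_cast Nat.sub_le _ _
          push_cast at this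
          refine le_trans (le_of_eq ?_) this
          push_cast
          rfl
      _ = _ := by
          have : (b : ℝ) ^ (t + m0) = (b : ℝ) ^ (z + m0) * (b : ℝ) ^ (t - z) := by
            rw [← pow_add]; congr 1; omega
          rw [this]; ring
  calc volume _ ≤ volume (⋃ n ∈ F, Set.Ioc ((n : ℝ) / (b : ℝ) ^ t) (((n : ℝ) + 1) / (b : ℝ) ^ t)) :=
        measure_mono hcover
    _ ≤ ∑ n ∈ F, volume (Set.Ioc ((n : ℝ) / (b : ℝ) ^ t) (((n : ℝ) + 1) / (b : ℝ) ^ t)) :=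
        measure_biUnion_finset_le _ _
    _ = ∑ n ∈ F, ENNReal.ofReal (((b : ℝ) ^ t)⁻¹) := by
        refine Finset.sum_congr rfl fun n _ => ?_
        rw [Real.volume_Ioc]
        congr 1
        field_simp
        ring
    _ = ENNReal.ofReal ((F.card : ℝ) * ((b : ℝ) ^ t)⁻¹) := by
        rw [Finset.sum_const, nsmul_eq_mul, ENNReal.ofReal_mul (Nat.cast_nonneg _), ENNReal.ofReal_natCast]
    _ ≤ _ := by
        refine ENNReal.ofReal_le_ofReal ?_
        calc (F.card : ℝ) * ((b : ℝ) ^ t)⁻¹ ≤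
            ((2 : ℝ) ^ (θ * k) * ((b : ℝ) ^ (t + m0) * (1 - δ / 2) ^ k)) * ((b : ℝ) ^ t)⁻¹ :=
              mul_le_mul_of_nonneg_right hcardF (by positivity)
          _ = _ := by
              rw [pow_add]
              field_simp

end Pool.Agent.N176.GP
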