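import Mathlib
import Pool.Agent.N176.GP.Meas

set_option autoImplicit false

/-!
# The almost everywhere statement
-/

namespace Pool.Agent.N176.GP

open Finset Filter Topology MeasureTheory
open Pool.Agent.H305R2 (roughPart)

open Classical in
theorem main {b : ℕ} (hb : 2 ≤ b) : ∀ κ : ℝ, 0 < κ → ∀ a : ℕ, 1 ≤ a → ∃ C c : ℝ, 0 < c ∧
    ∀ S : Set ℕ, (∃ x0 : ℕ, ∀ x ≥ x0,
      κ ≤ ∑ p ∈ (Ioc x (2 ^ a * x)).filter (fun p => p.Prime ∧ p ∈ S), Real.log p / p) →
    ∀ᵐ β : ℝ, 0 < β → ∀ᶠ n : ℕ in atTop, ∀ n' : ℕ, (n : ℝ) * (Real.log n) ^ C ≤ n' →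
      c * Real.log ((n' : ℝ) / n) ≤ (MB b S β n' : ℝ) - MB b S β n := by
  obtain ⟨K, hK, hwin⟩ := window hb
  intro κ hκ a ha
  obtain ⟨δ, hδ, hδ1, hw⟩ := hwin κ hκ a ha
  set Λ := 2 ^ a * K with hΛdef
  have hΛ : 2 ≤ Λ := by
    calc 2 = 2 ^ 1 * 1 := rfl
      _ ≤ 2 ^ a * K := Nat.mul_le_mul (Nat.pow_le_pow_right (by norm_num) ha) hK
  have hΛr : (2 : ℝ) ≤ Λ := by exact_mod_cast hΛ
  have hlogΛ : 0 < Real.log Λ := Real.log_pos (by linarith)
  set η := 1 - δ / 2 with hη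
  have hη0 : 0 < η := by linarith
  have hη1 : η < 1 := by linarith
  have hlogη : Real.log η < 0 := Real.log_neg hη0 hη1
  have hlog2 : 0 < Real.log 2 := Real.log_pos (by norm_num)
  set θ := -Real.log η / (2 * Real.log 2) with hθ
  have hθ0 : 0 < θ := by
    have : 0 < -Real.log η := by linarith
    positivity
  set ρ := Real.exp (Real.log η / 2) with hρ
  have hρ0 : 0 < ρ := Real.exp_pos _
  have hρ1 : ρ < 1 := by rw [hρ, Real.exp_lt_one_iff]; linarith
  have hkey : ∀ k : ℕ, (2 : ℝ) ^ (θ * k) * η ^ k = ρ ^ k := by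
    intro k
    have h1 : (2 : ℝ) ^ (θ * k) = Real.exp (-Real.log η / 2 * k) := by
      rw [Real.rpow_def_of_pos (by norm_num)]
      congr 1
      rw [hθ]; field_simp
    have h2 : η ^ k = Real.exp (Real.log η * k) := by
      rw [Real.exp_mul, Real.exp_log hη0, Real.rpow_natCast]
    rw [h1, h2, hρ, ← Real.exp_add, ← Real.exp_nat_mul]
    congr 1; ring
  set C1 := 4 / (-Real.log η) with hC1
  have hC10 : 0 < C1 := by
    have : 0 < -Real.log η := by linarith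
    positivity
  refine ⟨2 * Real.log Λ * (3 * C1 + 1), θ / (2 * Real.log Λ), by positivity, fun S hS => ?_⟩
  obtain ⟨x0, hx0⟩ := hS
  obtain ⟨z1, hz1⟩ := hw S x0 hx0
  set z0 := max z1 1 with hz0
  have hz01 : 1 ≤ z0 := le_max_right _ _
  have hiter : ∀ z ≥ z0, ∀ j : ℕ, 1 ≤ j → j ≤ b ^ (2 * z) → ∀ k : ℕ,
      ∑ n ∈ Ico (j * b ^ (Λ ^ k * z - z)) ((j + 1) * b ^ (Λ ^ k * z - z)),
      ((1 / 2 : ℝ)) ^ (GG S b Λ z k n) ≤ (1 - δ / 2) ^ k * (b : ℝ) ^ (Λ ^ k * z - z) := by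
    intro z hz j hj1 hj2 k
    exact iter hb hΛ hδ hδ1 hz01 (fun z hz j hj1 hj2 =>
      hz1 z ((le_max_left _ _).trans hz) j hj1 hj2) hz hj1 hj2 k
  -- Borel-Cantelli in each window
  set kk : ℕ → ℕ := fun i => ⌈C1 * Real.log ((i : ℝ) + 1)⌉₊ with hkk
  have hae : ∀ m0 : ℕ, ∀ᵐ β : ℝ, ((b : ℝ) ^ m0)⁻¹ < β → β ≤ (b : ℝ) ^ m0 → ∀ᶠ i : ℕ in atTop,
      ∀ k ≥ kk i, θ * k ≤ (GG S b Λ (2 ^ i) k (NB b β (Λ ^ k * 2 ^ i)) : ℝ) := by
    intro m0
    set p : ℕ → ℝ → Prop := fun i β => z0 ≤ 2 ^ i ∧ m0 ≤ 2 ^ i ∧ ((b : ℝ) ^ m0)⁻¹ < β ∧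
      β ≤ (b : ℝ) ^ m0 ∧ ∃ k ≥ kk i, (GG S b Λ (2 ^ i) k (NB b β (Λ ^ k * 2 ^ i)) : ℝ) < θ * k with hp
    have hmeas : ∀ i : ℕ, volume {β : ℝ | p i β} ≤
        ENNReal.ofReal ((b : ℝ) ^ m0 * (1 - ρ)⁻¹ * (1 / ((i : ℝ) + 1) ^ 2)) := by
      intro i
      by_cases hi : z0 ≤ 2 ^ i ∧ m0 ≤ 2 ^ i
      · have hsub : {β : ℝ | p i β} ⊆ ⋃ l : ℕ, {β : ℝ | ((b : ℝ) ^ m0)⁻¹ < β ∧ β ≤ (b : ℝ) ^ m0 ∧
            (GG S b Λ (2 ^ i) (kk i + l) (NB b β (Λ ^ (kk i + l) * 2 ^ i)) : ℝ) <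
              θ * ((kk i + l : ℕ) : ℝ)} := by
          rintro β ⟨_, _, h3, h4, k, hk, h5⟩
          rw [Set.mem_iUnion]
          refine ⟨k - kk i, h3, h4, ?_⟩
          have e : kk i + (k - kk i) = k := by omega
          rw [e]
          exact h5
        calc volume {β : ℝ | p i β} ≤ volume (⋃ l : ℕ, {β : ℝ | ((b : ℝ) ^ m0)⁻¹ < β ∧
              β ≤ (b : ℝ) ^ m0 ∧ (GG S b Λ (2 ^ i) (kk i + l) (NB b β (Λ ^ (kk i + l) * 2 ^ i)) : ℝ) <
              θ * ((kk i + l : ℕ) : ℝ)}) := measure_mono hsub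
          _ ≤ ∑' l : ℕ, volume {β : ℝ | ((b : ℝ) ^ m0)⁻¹ < β ∧
              β ≤ (b : ℝ) ^ m0 ∧ (GG S b Λ (2 ^ i) (kk i + l) (NB b β (Λ ^ (kk i + l) * 2 ^ i)) : ℝ) <
              θ * ((kk i + l : ℕ) : ℝ)} := measure_iUnion_le _
          _ ≤ ∑' l : ℕ, ENNReal.ofReal ((b : ℝ) ^ m0 * ρ ^ (kk i + l)) := by
              refine ENNReal.tsum_le_tsum fun l => ?_
              refine (bad_measure hb hΛ hδ hδ1 hiter hi.1 hi.2 (kk i + l)).trans (le_of_eq ?_)
              rw [← hη, hkey]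
          _ = ENNReal.ofReal (∑' l : ℕ, (b : ℝ) ^ m0 * ρ ^ (kk i + l)) := by
              rw [ENNReal.ofReal_tsum_of_nonneg (fun l => by positivity)]
              simp only [pow_add, ← mul_assoc]
              exact (summable_geometric_of_lt_one hρ0.le hρ1).mul_left _
          _ ≤ _ := by
              refine ENNReal.ofReal_le_ofReal ?_
              have e1 : ∑' l : ℕ, (b : ℝ) ^ m0 * ρ ^ (kk i + l) =
                  (b : ℝ) ^ m0 * ρ ^ (kk i) * (1 - ρ)⁻¹ := by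
                simp only [pow_add, ← mul_assoc]
                rw [tsum_mul_left, tsum_geometric_of_lt_one hρ0.le hρ1]
              rw [e1]
              have h1 : ρ ^ (kk i) ≤ 1 / ((i : ℝ) + 1) ^ 2 := by
                have hi0 : (0 : ℝ) < (i : ℝ) + 1 := by positivity
                have h2 : C1 * Real.log ((i : ℝ) + 1) ≤ kk i := Nat.le_ceil _
                have e3 : 1 / ((i : ℝ) + 1) ^ 2 = Real.exp (-(2 * Real.log ((i : ℝ) + 1))) := by
                  rw [Real.exp_neg, two_mul, Real.exp_add, Real.exp_log hi0, one_div, sq]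
                rw [hρ, ← Real.exp_nat_mul, e3, Real.exp_le_exp]
                have h3 : C1 * -Real.log η = 4 := by
                  rw [hC1]
                  exact div_mul_cancel₀ _ (by linarith)
                have h4 : 4 * Real.log ((i : ℝ) + 1) ≤ kk i * -Real.log η := by
                  calc 4 * Real.log ((i : ℝ) + 1) = C1 * Real.log ((i : ℝ) + 1) * -Real.log η := by
                        rw [← h3]; ring
                    _ ≤ _ := mul_le_mul_of_nonneg_right h2 (by linarith)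
                linarith
              have h2 : 0 < (1 - ρ)⁻¹ := inv_pos.2 (by linarith)
              calc (b : ℝ) ^ m0 * ρ ^ (kk i) * (1 - ρ)⁻¹ = (b : ℝ) ^ m0 * (1 - ρ)⁻¹ * ρ ^ (kk i) := by ring
                _ ≤ _ := mul_le_mul_of_nonneg_left h1 (by positivity)
      · have : {β : ℝ | p i β} = ∅ := by
          rw [Set.eq_empty_iff_forall_notMem]
          rintro β ⟨h1, h2, _⟩
          exact hi ⟨h1, h2⟩
        rw [this, measure_empty]
        exact zero_le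
    have hsum : ∑' i : ℕ, volume {β : ℝ | p i β} ≠ ⊤ := by
      refine ne_top_of_le_ne_top ?_ (ENNReal.tsum_le_tsum hmeas)
      have hs : Summable fun i : ℕ => (b : ℝ) ^ m0 * (1 - ρ)⁻¹ * (1 / ((i : ℝ) + 1) ^ 2) := by
        refine Summable.mul_left _ ?_
        have h1 := (summable_nat_add_iff 1).2 (Real.summable_one_div_nat_pow.2 (show 1 < 2 by norm_num))
        refine h1.congr fun i => ?_
        push_cast
        rfl
      have h2 : 0 < (1 - ρ)⁻¹ := inv_pos.2 (by linarith)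
      rw [← ENNReal.ofReal_tsum_of_nonneg (fun i => by positivity) hs]
      exact ENNReal.ofReal_ne_top
    have hfr := measure_setOfPred_frequently_eq_zero hsum
    have hae1 : ∀ᵐ β : ℝ, ¬ ∃ᶠ i in atTop, p i β := by
      rw [ae_iff]
      simpa only [not_not] using hfr
    filter_upwards [hae1] with β hβ h1 h2
    rw [not_frequently] at hβ
    have ht : Tendsto (fun i : ℕ => 2 ^ i) atTop atTop := tendsto_pow_atTop_atTop_of_one_lt (by norm_num)
    filter_upwards [hβ, ht.eventually_ge_atTop z0, ht.eventually_ge_atTop m0] with i h3 h4 h5 k hk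
    by_contra hcon
    exact h3 ⟨h4, h5, h1, h2, k, hk, not_le.1 hcon⟩
  have hae' : ∀ᵐ β : ℝ, ∀ m0 : ℕ, ((b : ℝ) ^ m0)⁻¹ < β → β ≤ (b : ℝ) ^ m0 → ∀ᶠ i : ℕ in atTop,
      ∀ k ≥ kk i, θ * k ≤ (GG S b Λ (2 ^ i) k (NB b β (Λ ^ k * 2 ^ i)) : ℝ) := ae_all_iff.2 hae
  filter_upwards [hae'] with β hβ hβ0
  obtain ⟨m0, hm1, hm2⟩ : ∃ m0 : ℕ, ((b : ℝ) ^ m0)⁻¹ < β ∧ β ≤ (b : ℝ) ^ m0 := by
    have hb1 : (1 : ℝ) < b := by exact_mod_cast (by omega : 1 < b)
    have ht : Tendsto (fun m : ℕ => (b : ℝ) ^ m) atTop atTop := tendsto_pow_atTop_atTop_of_one_lt hb1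
    obtain ⟨m0, h1, h2⟩ := ((ht.eventually_ge_atTop β).and (ht.eventually_gt_atTop β⁻¹)).exists
    exact ⟨m0, by rw [inv_lt_comm₀ (by positivity) hβ0]; exact h2, h1⟩
  obtain ⟨i0, hi0⟩ := eventually_atTop.1 (hβ m0 hm1 hm2)
  -- from the blocks to all intervals
  have hlog : Tendsto (fun n : ℕ => Real.log n) atTop atTop :=
    Real.tendsto_log_atTop.comp tendsto_natCast_atTop_atTop
  have hloglog : Tendsto (fun n : ℕ => Real.log (Real.log n)) atTop atTop :=
    Real.tendsto_log_atTop.comp hlog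
  filter_upwards [eventually_ge_atTop (2 ^ i0), eventually_ge_atTop 2, hlog.eventually_ge_atTop 2,
    hloglog.eventually_ge_atTop (2 * (Real.log 2 + Real.log Λ) + 2)] with n hn1 hn2 hn3 hn4 n' hn'
  have hn2r : (2 : ℝ) ≤ n := by exact_mod_cast hn2
  have hn0 : (0 : ℝ) < n := by linarith
  have hLL : 2 ≤ Real.log (Real.log n) := by
    have : 0 < Real.log 2 + Real.log Λ := by positivity
    linarith
  set i := Nat.log 2 n + 1 with hi
  have hi1 : n < 2 ^ i := Nat.lt_pow_succ_log_self (by norm_num) n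
  have hi2 : 2 ^ i ≤ 2 * n := by
    rw [hi, pow_succ]
    have := Nat.pow_log_le_self 2 (show n ≠ 0 by omega)
    omega
  have hii0 : i0 ≤ i := by
    have : 2 ^ i0 < 2 ^ i := lt_of_le_of_lt hn1 hi1
    exact ((Nat.pow_lt_pow_iff_right (by norm_num)).1 this).le
  set R := (n' : ℝ) / n with hR
  have hRlow : (Real.log n) ^ (2 * Real.log Λ * (3 * C1 + 1)) ≤ R := by
    rw [hR, le_div_iff₀ hn0, mul_comm]; exact hn'
  have hlogn0 : 0 < Real.log n := by linarith
  have hR0 : 0 < R := lt_of_lt_of_le (by positivity) hRlow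
  have hlogR : 2 * Real.log Λ * (3 * C1 + 1) * Real.log (Real.log n) ≤ Real.log R := by
    rw [← Real.log_rpow hlogn0]
    exact Real.log_le_log (by positivity) hRlow
  have hlogR2 : 2 * (3 * C1 + 1) * Real.log (Real.log n) * Real.log Λ ≤ Real.log R := by
    linarith
  set k := Nat.log Λ (n' / 2 ^ i) with hk
  have h2i0 : (0 : ℝ) < (2 : ℝ) ^ i := by positivity
  have hi2r : ((2 : ℝ) ^ i) ≤ 2 * n := by exact_mod_cast hi2
  -- lower bound for `k`
  have hRbig : 2 * (Real.log 2 + Real.log Λ) ≤ Real.log R := by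
    have h1 : 2 * (Real.log 2 + Real.log Λ) ≤ Real.log (Real.log n) := by linarith
    have h2 : (1 : ℝ) ≤ 2 * Real.log Λ * (3 * C1 + 1) := by
      have h3 : Real.log 2 ≤ Real.log Λ := Real.log_le_log (by norm_num) hΛr
      have h4 := Real.log_two_gt_d9
      nlinarith
    have h3 : Real.log (Real.log n) ≤ 2 * Real.log Λ * (3 * C1 + 1) * Real.log (Real.log n) := by
      nlinarith
    linarith
  have hn'2 : (2 : ℝ) ^ i ≤ n' := by
    have h1 : (2 : ℝ) ≤ R := by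
      have h3 : Real.log 2 ≤ Real.log R := by linarith
      exact (Real.log_le_log_iff (by norm_num) hR0).1 h3
    calc (2 : ℝ) ^ i ≤ 2 * n := hi2r
      _ ≤ R * n := mul_le_mul_of_nonneg_right h1 hn0.le
      _ = n' := by rw [hR]; field_simp
  have hn'2n : 2 ^ i ≤ n' := by exact_mod_cast hn'2
  have hq1 : 1 ≤ n' / 2 ^ i := (Nat.one_le_div_iff (by positivity)).2 hn'2n
  have hk1 : Λ ^ k ≤ n' / 2 ^ i := Nat.pow_log_le_self Λ (by omega)
  have hk2 : n' / 2 ^ i < Λ ^ (k + 1) := Nat.lt_pow_succ_log_self (by omega) _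
  have hkn' : Λ ^ k * 2 ^ i ≤ n' := by
    calc Λ ^ k * 2 ^ i ≤ (n' / 2 ^ i) * 2 ^ i := Nat.mul_le_mul_right _ hk1
      _ ≤ n' := Nat.div_mul_le_self _ _
  have hkup : n' < Λ ^ (k + 1) * 2 ^ i := by
    rw [Nat.div_lt_iff_lt_mul (by positivity)] at hk2
    exact hk2
  have hklow : Real.log R - Real.log 2 ≤ ((k : ℝ) + 1) * Real.log Λ := by
    have h1 : (n' : ℝ) < (Λ : ℝ) ^ (k + 1) * (2 : ℝ) ^ i := by exact_mod_cast hkup
    have h2 : R < (Λ : ℝ) ^ (k + 1) * 2 := by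
      rw [hR, div_lt_iff₀ hn0]
      calc (n' : ℝ) < (Λ : ℝ) ^ (k + 1) * (2 : ℝ) ^ i := h1
        _ ≤ (Λ : ℝ) ^ (k + 1) * (2 * n) := mul_le_mul_of_nonneg_left hi2r (by positivity)
        _ = _ := by ring
    have h3 := Real.log_le_log hR0 h2.le
    rw [Real.log_mul (by positivity) (by norm_num), Real.log_pow] at h3
    push_cast at h3
    linarith
  have hkR : Real.log R ≤ 2 * Real.log Λ * k := by
    nlinarith
  have hkkk : kk i ≤ k := by
    rw [hkk]
    simp only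
    rw [Nat.ceil_le]
    have h1 : (3 * C1 + 1) * Real.log (Real.log n) ≤ k := by
      have h2 : (3 * C1 + 1) * Real.log (Real.log n) * (2 * Real.log Λ) ≤ k * (2 * Real.log Λ) := by
        linarith
      exact le_of_mul_le_mul_right h2 (by positivity)
    have h3 : (i : ℝ) + 1 ≤ (Real.log n) ^ 2 * 2 := by
      have h4 : ((Nat.log 2 n : ℕ) : ℝ) * Real.log 2 ≤ Real.log n := by
        rw [← Real.log_pow]
        refine Real.log_le_log (by positivity) ?_
        exact_mod_cast Nat.pow_log_le_self 2 (show n ≠ 0 by omega)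
      have h5 := Real.log_two_gt_d9
      have h6 : (i : ℝ) = (Nat.log 2 n : ℕ) + 1 := by rw [hi]; push_cast; ring
      have h7 : ((Nat.log 2 n : ℕ) : ℝ) ≤ 2 * Real.log n := by
        have : (0 : ℝ) ≤ ((Nat.log 2 n : ℕ) : ℝ) := Nat.cast_nonneg _
        nlinarith
      rw [h6]
      nlinarith
    have h8 : Real.log ((i : ℝ) + 1) ≤ 2 * Real.log (Real.log n) + 1 := by
      calc Real.log ((i : ℝ) + 1) ≤ Real.log ((Real.log n) ^ 2 * 2) :=
            Real.log_le_log (by positivity) h3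
        _ = 2 * Real.log (Real.log n) + Real.log 2 := by
            rw [Real.log_mul (by positivity) (by norm_num), Real.log_pow]; push_cast; ring
        _ ≤ _ := by
            have := Real.log_two_lt_d9
            linarith
    calc C1 * Real.log ((i : ℝ) + 1) ≤ C1 * (2 * Real.log (Real.log n) + 1) :=
          mul_le_mul_of_nonneg_left h8 hC10.le
      _ ≤ (3 * C1 + 1) * Real.log (Real.log n) := by nlinarith
      _ ≤ k := h1
  have hfin := hi0 i hii0 k hkkk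
  have hge := MB_ge (S := S) hb hβ0 (show 1 ≤ Λ by omega) (z := 2 ^ i) k
  have hmonoM : ∀ u v : ℕ, u ≤ v → MB b S β u ≤ MB b S β v := fun u v huv =>
    (Nat.le_add_right _ _).trans (MB_mono_hit huv)
  have h1 := hmonoM n (2 ^ i) hi1.le
  have h2 := hmonoM (Λ ^ k * 2 ^ i) n' hkn'
  have h3 : (MB b S β n : ℝ) + GG S b Λ (2 ^ i) k (NB b β (Λ ^ k * 2 ^ i)) ≤ MB b S β n' := by
    exact_mod_cast (by omega : MB b S β n + GG S b Λ (2 ^ i) k (NB b β (Λ ^ k * 2 ^ i)) ≤ MB b S β n')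
  have h4 : θ / (2 * Real.log Λ) * Real.log R ≤ θ * k := by
    rw [div_mul_eq_mul_div, div_le_iff₀ (by positivity)]
    nlinarith
  linarith

end Pool.Agent.N176.GP
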