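import Mathlib
import Pool.Agent.N176.GP.AE
import Pool.Agent.Helper601.JobC

set_option autoImplicit false

/-!
# Preparations for the final statement
-/

namespace Pool.Agent.N176.GP

open Finset Filter Topology MeasureTheory
open Pool.Agent.H305R2 (roughPart)

open Classical in
lemma thick_univ : ∃ A : ℕ, ∀ x : ℕ, 1 ≤ x →
    (1 : ℝ) ≤ ∑ p ∈ (Ioc x (A * x)).filter (fun p => p.Prime ∧ p ∈ (Set.univ : Set ℕ)), Real.log p / p := by
  obtain ⟨C, hC⟩ := Pool.Agent.Helper601.Mertens.mertens_log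
  have hC0 : 0 ≤ C := (abs_nonneg _).trans (hC 1 le_rfl)
  refine ⟨⌈Real.exp (2 * C + 1)⌉₊, fun x hx => ?_⟩
  set A := ⌈Real.exp (2 * C + 1)⌉₊ with hA
  have hAr : Real.exp (2 * C + 1) ≤ A := Nat.le_ceil _
  have hA1 : 1 ≤ A := Nat.one_le_ceil_iff.2 (Real.exp_pos _)
  have hx0 : (0 : ℝ) < x := by exact_mod_cast hx
  have hxA : x ≤ A * x := Nat.le_mul_of_pos_left x hA1
  have h1 := hC x hx
  have h2 := hC (A * x) (hx.trans hxA)
  have h3 : ∑ p ∈ (Ioc x (A * x)).filter (fun p => p.Prime ∧ p ∈ (Set.univ : Set ℕ)), Real.log p / p =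
      ∑ p ∈ (Icc 1 (A * x)).filter Nat.Prime, Real.log p / p -
      ∑ p ∈ (Icc 1 x).filter Nat.Prime, Real.log p / p := by
    rw [eq_sub_iff_add_eq, add_comm]
    have e : (Icc 1 (A * x)).filter Nat.Prime = (Icc 1 x).filter Nat.Prime ∪
        (Ioc x (A * x)).filter (fun p => p.Prime ∧ p ∈ (Set.univ : Set ℕ)) := by
      ext p
      simp only [mem_filter, mem_union, mem_Icc, mem_Ioc, Set.mem_univ, and_true]
      constructor
      · rintro ⟨⟨h4, h5⟩, h6⟩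
        rcases le_or_gt p x with h7 | h7
        · left; exact ⟨⟨h4, h7⟩, h6⟩
        · right; exact ⟨⟨h7, h5⟩, h6⟩
      · rintro (⟨⟨h4, h5⟩, h6⟩ | ⟨⟨h4, h5⟩, h6⟩)
        · exact ⟨⟨h4, h5.trans hxA⟩, h6⟩
        · exact ⟨⟨by omega, h5⟩, h6⟩
    rw [e, Finset.sum_union]
    rw [Finset.disjoint_left]
    intro p hp hq
    rw [mem_filter, mem_Icc] at hp
    rw [mem_filter, mem_Ioc] at hq
    omega
  have h4 : Real.log ((A * x : ℕ) : ℝ) = Real.log A + Real.log x := by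
    push_cast
    rw [Real.log_mul (by positivity) hx0.ne']
  have h5 : 2 * C + 1 ≤ Real.log A := by
    rw [Real.le_log_iff_exp_le (by exact_mod_cast hA1)]
    exact hAr
  rw [h3]
  rw [h4] at h2
  have h6 := (abs_le.1 h1).2
  have h7 := (abs_le.1 h2).1
  linarith

open Classical in
theorem main2 {b : ℕ} (hb : 2 ≤ b) : ∀ κ : ℝ, 0 < κ → ∀ A : ℕ, ∃ C c : ℝ, 0 < c ∧
    ∀ S : Set ℕ, (∃ x0 : ℕ, ∀ x ≥ x0,
      κ ≤ ∑ p ∈ (Ioc x (A * x)).filter (fun p => p.Prime ∧ p ∈ S), Real.log p / p) →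
    ∀ᵐ β : ℝ, 0 < β → ∀ᶠ n : ℕ in atTop, ∀ n' : ℕ, (n : ℝ) * (Real.log n) ^ C ≤ n' →
      c * Real.log ((n' : ℝ) / n) ≤ (MB b S β n' : ℝ) - MB b S β n := by
  intro κ hκ A
  obtain ⟨C, c, hc, h⟩ := main hb κ hκ (A + 1) (by omega)
  refine ⟨C, c, hc, fun S hS => h S ?_⟩
  obtain ⟨x0, hx0⟩ := hS
  refine ⟨x0, fun x hx => (hx0 x hx).trans ?_⟩
  refine Finset.sum_le_sum_of_subset_of_nonneg ?_ fun p _ _ => by
    have := Real.log_natCast_nonneg p
    positivity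
  intro p hp
  rw [mem_filter, mem_Ioc] at hp ⊢
  refine ⟨⟨hp.1.1, hp.1.2.trans (Nat.mul_le_mul_right x ?_)⟩, hp.2⟩
  exact (Nat.lt_two_pow_self.le.trans (Nat.pow_le_pow_right (by norm_num) (Nat.le_succ A)))

lemma lt_of_dvd_mersenne {p r : ℕ} (hp : p.Prime) (hr : r.Prime) (h : r ∣ 2 ^ p - 1) : p < r := by
  haveI : Fact p.Prime := ⟨hp⟩
  haveI : Fact r.Prime := ⟨hr⟩
  have h1 : (2 : ZMod r) ^ p = 1 := by
    have h2 : ((2 ^ p - 1 : ℕ) : ZMod r) = 0 := (ZMod.natCast_eq_zero_iff _ _).2 h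
    rw [Nat.cast_sub (Nat.one_le_two_pow)] at h2
    push_cast at h2
    exact sub_eq_zero.1 h2
  have h2 : (2 : ZMod r) ≠ 1 := by
    intro h3
    have h4 : (1 : ZMod r) = 0 := by
      have : (2 : ZMod r) = 1 + 1 := by norm_num
      rw [this] at h3
      simpa using h3
    exact one_ne_zero h4
  have h3 : orderOf (2 : ZMod r) = p := orderOf_eq_prime h1 h2
  have h4 : (2 : ZMod r) ≠ 0 := by
    intro h5
    rw [h5, zero_pow hp.ne_zero] at h1
    exact zero_ne_one h1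
  have h5 : p ∣ r - 1 := by
    rw [← h3]
    exact orderOf_dvd_of_pow_eq_one (ZMod.pow_card_sub_one_eq_one h4)
  have h6 := Nat.le_of_dvd (by have := hr.one_lt; omega) h5
  have h7 := hr.one_lt
  omega

lemma special {p : ℕ} (hp : p.Prime) : roughPart p (⌈(1 : ℝ) * 2 ^ p⌉₊ - 1) = 2 ^ p - 1 := by
  have e : ⌈(1 : ℝ) * 2 ^ p⌉₊ = 2 ^ p := by
    rw [one_mul]
    have : ((2 : ℝ) ^ p) = ((2 ^ p : ℕ) : ℝ) := by push_cast; rfl
    rw [this, Nat.ceil_natCast]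
  rw [e]
  unfold roughPart
  have h2 : 2 ^ p - 1 ≠ 0 := by
    have : 2 ^ 1 ≤ 2 ^ p := Nat.pow_le_pow_right (by norm_num) hp.one_lt.le
    omega
  rw [List.filter_eq_self.2, Nat.prod_primeFactorsList h2]
  intro r hr
  have := lt_of_dvd_mersenne hp (Nat.prime_of_mem_primeFactorsList hr) (Nat.dvd_of_mem_primeFactorsList hr)
  simpa using this

end Pool.Agent.N176.GP
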